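import Pool.Agent.R942.FJ.Mhe

/-!
# Multiple HNN extensions along abelian groups which are detected by a rational vector space
-/

set_option autoImplicit false

namespace Pool.Agent.R942.FJ

open Pool.Agent.Y110.FJ Pool.Agent.R779.FJ
open Pool.Agent.Y462.SS (Closed)

section lin

variable {W : Type} [AddCommGroup W] [Module ℚ W] [FiniteDimensional ℚ W]

/-- an isomorphism between subspaces, given by its graph, extends to an automorphism -/
theorem ext_aut (Γ : Submodule ℚ (W × W)) (h1 : ∀ x ∈ Γ, x.1 = 0 → x.2 = 0)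
    (h2 : ∀ x ∈ Γ, x.2 = 0 → x.1 = 0) : ∃ s : W ≃ₗ[ℚ] W, ∀ x ∈ Γ, s x.1 = x.2 := by
  let p : Γ →ₗ[ℚ] W := (LinearMap.fst ℚ W W).comp Γ.subtype
  let q : Γ →ₗ[ℚ] W := (LinearMap.snd ℚ W W).comp Γ.subtype
  have hp : Function.Injective p := by
    rw [← LinearMap.ker_eq_bot, LinearMap.ker_eq_bot']
    intro x hx
    exact Subtype.ext (Prod.ext hx (h1 x x.2 hx))
  have hq : Function.Injective q := by
    rw [← LinearMap.ker_eq_bot, LinearMap.ker_eq_bot']
    intro x hx
    exact Subtype.ext (Prod.ext (h2 x x.2 hx) hx)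
  let e : LinearMap.range p ≃ₗ[ℚ] LinearMap.range q :=
    (LinearEquiv.ofInjective p hp).symm.trans (LinearEquiv.ofInjective q hq)
  have he : ∀ x : Γ, e ⟨p x, x, rfl⟩ = ⟨q x, x, rfl⟩ := by
    intro x
    have h3 : (LinearEquiv.ofInjective p hp).symm ⟨p x, x, rfl⟩ = x := by
      rw [LinearEquiv.symm_apply_eq]
      rfl
    show LinearEquiv.ofInjective q hq ((LinearEquiv.ofInjective p hp).symm ⟨p x, x, rfl⟩) = _
    rw [h3]
    rfl
  obtain ⟨K, hK⟩ := Submodule.exists_isCompl (LinearMap.range p)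
  obtain ⟨K', hK'⟩ := Submodule.exists_isCompl (LinearMap.range q)
  have hd : Module.finrank ℚ K = Module.finrank ℚ K' := by
    have h3 := Submodule.finrank_add_eq_of_isCompl hK
    have h4 := Submodule.finrank_add_eq_of_isCompl hK'
    have h5 := e.finrank_eq
    omega
  let k : K ≃ₗ[ℚ] K' := LinearEquiv.ofFinrankEq _ _ hd
  let s : W ≃ₗ[ℚ] W := (Submodule.prodEquivOfIsCompl _ K hK).symm.trans
    ((e.prodCongr k).trans (Submodule.prodEquivOfIsCompl _ K' hK'))
  refine ⟨s, fun x hx => ?_⟩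
  have h3 : (Submodule.prodEquivOfIsCompl _ K hK).symm x.1 =
      ((⟨p ⟨x, hx⟩, ⟨x, hx⟩, rfl⟩ : LinearMap.range p), (0 : K)) := by
    rw [LinearEquiv.symm_apply_eq, Submodule.coe_prodEquivOfIsCompl']
    show x.1 = x.1 + ((0 : K) : W)
    rw [Submodule.coe_zero, add_zero]
  show Submodule.prodEquivOfIsCompl _ K' hK' ((e.prodCongr k)
    ((Submodule.prodEquivOfIsCompl _ K hK).symm x.1)) = x.2
  rw [h3]
  show Submodule.prodEquivOfIsCompl _ K' hK' (e ⟨p ⟨x, hx⟩, ⟨x, hx⟩, rfl⟩, k 0) = x.2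
  rw [he, map_zero, Submodule.coe_prodEquivOfIsCompl']
  show x.2 + ((0 : K') : W) = x.2
  rw [Submodule.coe_zero, add_zero]

/-- the automorphisms of a finite-dimensional space -/
theorem C_end {C : ∀ (G : Type) [Group G], Prop} (hC : Closed C)
    (hgl : ∀ n : ℕ, C (Matrix (Fin n) (Fin n) ℚ)ˣ) : C (Module.End ℚ W)ˣ := by
  let b := Module.finBasis ℚ W
  let φ : (Module.End ℚ W)ˣ ≃* (Matrix (Fin (Module.finrank ℚ W)) (Fin (Module.finrank ℚ W)) ℚ)ˣ :=
    Units.mapEquiv (LinearMap.toMatrixAlgEquiv b).toMulEquiv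
  exact hC.of_injective _ _ φ.toMonoidHom φ.injective (hgl _)

end lin

section

variable {M : Type} [Group M] {I : Type} {B : I → Type} [∀ i, Group (B i)] (α β : ∀ i, B i →* M)

/-- the affine action -/
def aff {V W : Type} [AddCommGroup V] [Module ℚ V] [AddCommGroup W] [Module ℚ W] (π : V →ₗ[ℚ] W)
    (f0 : M →* Multiplicative V) : M →* Module.End ℚ (ℚ × W) where
  toFun m := LinearMap.prod (LinearMap.fst ℚ ℚ W)
    (LinearMap.snd ℚ ℚ W + (LinearMap.toSpanSingleton ℚ W (π (f0 m).toAdd)).comp (LinearMap.fst ℚ ℚ W))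
  map_one' := by
    ext
    · rfl
    · show (0 : W) + (1 : ℚ) • π ((f0 1).toAdd) = 0
      rw [map_one, toAdd_one, map_zero, smul_zero, add_zero]
    · rfl
    · show _ + (0 : ℚ) • π ((f0 1).toAdd) = _
      rw [zero_smul, add_zero]
      rfl
  map_mul' x y := by
    refine LinearMap.ext fun v => ?_
    show ((v.1, v.2 + v.1 • π ((f0 (x * y)).toAdd)) : ℚ × W) =
      (v.1, (v.2 + v.1 • π ((f0 y).toAdd)) + v.1 • π ((f0 x).toAdd))
    rw [map_mul, toAdd_mul, map_add, smul_add, add_assoc, add_comm (v.1 • π (f0 y).toAdd)]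

theorem aff_apply {V W : Type} [AddCommGroup V] [Module ℚ V] [AddCommGroup W] [Module ℚ W]
    (π : V →ₗ[ℚ] W) (f0 : M →* Multiplicative V) (m : M) (v : ℚ × W) :
    aff π f0 m v = (v.1, v.2 + v.1 • π ((f0 m).toAdd)) := rfl

theorem ta_mul {B V : Type} [Group B] [AddCommGroup V] (a : B →* Multiplicative V) (b c : B) (m n : ℕ) :
    (a (b ^ m * c ^ n)).toAdd = m • (a b).toAdd + n • (a c).toAdd := by
  rw [map_mul a, map_pow a, map_pow a]
  rfl

theorem ta_zpow {B V : Type} [Group B] [AddCommGroup V] (a : B →* Multiplicative V) (b : B) (k : ℤ) :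
    (a (b ^ k)).toAdd = k • (a b).toAdd := by
  rw [map_zpow a]
  rfl

/-- abelian associated subgroups that are detected by a homomorphism to a rational vector space -/
theorem loc_ab {C : ∀ (G : Type) [Group G], Prop} (hC : ClosedE C)
    (hgl : ∀ n : ℕ, C (Matrix (Fin n) (Fin n) ℚ)ˣ) {V : Type} [AddCommGroup V] [Module ℚ V]
    (f0 : M →* Multiplicative V) (ha : ∀ i b, f0 (α i b) = 1 → b = 1)
    (hb : ∀ i b, f0 (β i b) = 1 → b = 1) : LocMh α β C := by
  classical
  intro S hS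
  let T : Set V := (fun x : Σ i, B i => (f0 (α x.1 x.2)).toAdd) '' S ∪
    (fun x : Σ i, B i => (f0 (β x.1 x.2)).toAdd) '' S
  have hT : T.Finite := (hS.image _).union (hS.image _)
  let W : Submodule ℚ V := Submodule.span ℚ T
  have : FiniteDimensional ℚ W := FiniteDimensional.span_of_finite ℚ hT
  obtain ⟨π, hπ⟩ := LinearMap.exists_leftInverse_of_injective W.subtype
    (LinearMap.ker_eq_bot.2 W.subtype_injective)
  have hπ' : ∀ w : W, π (w : V) = w := fun w => LinearMap.congr_fun hπ w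
  have hWa : ∀ i, ∀ b ∈ clS S i, (f0 (α i b)).toAdd ∈ W := by
    intro i b hb
    have h1 : clS S i ≤ W.toAddSubgroup.toSubgroup'.comap (f0.comp (α i)) := by
      rw [clS, Subgroup.closure_le]
      intro b hb
      exact Submodule.subset_span (Or.inl ⟨⟨i, b⟩, hb, rfl⟩)
    exact h1 hb
  have hWb : ∀ i, ∀ b ∈ clS S i, (f0 (β i b)).toAdd ∈ W := by
    intro i b hb
    have h1 : clS S i ≤ W.toAddSubgroup.toSubgroup'.comap (f0.comp (β i)) := by
      rw [clS, Subgroup.closure_le]
      intro b hb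
      exact Submodule.subset_span (Or.inr ⟨⟨i, b⟩, hb, rfl⟩)
    exact h1 hb
  have hs : ∀ i, ∃ s : W ≃ₗ[ℚ] W, ∀ b ∈ clS S i,
      s (π (f0 (α i b)).toAdd) = π (f0 (β i b)).toAdd := by
    intro i
    let Γ : Submodule ℚ (W × W) :=
      { carrier := {x | ∃ n : ℕ, 0 < n ∧ ∃ b ∈ clS S i, n • (x.1 : V) = (f0 (α i b)).toAdd ∧
          n • (x.2 : V) = (f0 (β i b)).toAdd}
        zero_mem' := ⟨1, Nat.one_pos, 1, one_mem _, by
          rw [map_one, map_one, toAdd_one]
          simp, by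
          rw [map_one, map_one, toAdd_one]
          simp⟩
        add_mem' := by
          rintro x y ⟨n, hn, b, hb, h1, h2⟩ ⟨m, hm, c, hc, h3, h4⟩
          refine ⟨n * m, Nat.mul_pos hn hm, b ^ m * c ^ n, mul_mem (pow_mem hb m) (pow_mem hc n),
            ?_, ?_⟩
          · rw [show (f0 (α i (b ^ m * c ^ n))).toAdd = _ from ta_mul (f0.comp (α i)) b c m n]
            show _ = m • (f0 (α i b)).toAdd + n • (f0 (α i c)).toAdd
            rw [← h1, ← h3, Prod.fst_add, Submodule.coe_add, smul_add, smul_smul, smul_smul,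
              mul_comm m n]
          · rw [show (f0 (β i (b ^ m * c ^ n))).toAdd = _ from ta_mul (f0.comp (β i)) b c m n]
            show _ = m • (f0 (β i b)).toAdd + n • (f0 (β i c)).toAdd
            rw [← h2, ← h4, Prod.snd_add, Submodule.coe_add, smul_add, smul_smul, smul_smul,
              mul_comm m n]
        smul_mem' := by
          rintro c x ⟨n, hn, b, hb, h1, h2⟩
          refine ⟨n * c.den, Nat.mul_pos hn c.den_pos, b ^ c.num, zpow_mem hb _, ?_, ?_⟩
          · rw [show (f0 (α i (b ^ c.num))).toAdd = _ from ta_zpow (f0.comp (α i)) b c.num]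
            show _ = c.num • (f0 (α i b)).toAdd
            rw [← h1]
            show (n * c.den) • ((c • x.1 : W) : V) = c.num • n • (x.1 : V)
            rw [Submodule.coe_smul, ← Nat.cast_smul_eq_nsmul ℚ, ← Nat.cast_smul_eq_nsmul ℚ n,
              ← Int.cast_smul_eq_zsmul ℚ, smul_smul, smul_smul]
            congr 1
            push_cast
            rw [mul_assoc, Rat.den_mul_eq_num, mul_comm]
          · rw [show (f0 (β i (b ^ c.num))).toAdd = _ from ta_zpow (f0.comp (β i)) b c.num]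
            show _ = c.num • (f0 (β i b)).toAdd
            rw [← h2]
            show (n * c.den) • ((c • x.2 : W) : V) = c.num • n • (x.2 : V)
            rw [Submodule.coe_smul, ← Nat.cast_smul_eq_nsmul ℚ, ← Nat.cast_smul_eq_nsmul ℚ n,
              ← Int.cast_smul_eq_zsmul ℚ, smul_smul, smul_smul]
            congr 1
            push_cast
            rw [mul_assoc, Rat.den_mul_eq_num, mul_comm] }
    obtain ⟨s, hs⟩ := ext_aut Γ (by
      rintro x ⟨n, hn, b, hb', h1, h2⟩ h0
      rw [h0, Submodule.coe_zero, smul_zero] at h1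
      have h3 : b = 1 := ha i b (Multiplicative.toAdd.injective (by rw [toAdd_one]; exact h1.symm))
      rw [h3, map_one, map_one, toAdd_one, ← Nat.cast_smul_eq_nsmul ℚ, smul_eq_zero] at h2
      rcases h2 with h2 | h2
      · exact absurd (Nat.cast_eq_zero.1 h2) hn.ne'
      · exact Subtype.ext h2) (by
      rintro x ⟨n, hn, b, hb', h1, h2⟩ h0
      rw [h0, Submodule.coe_zero, smul_zero] at h2
      have h3 : b = 1 := hb i b (Multiplicative.toAdd.injective (by rw [toAdd_one]; exact h2.symm))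
      rw [h3, map_one, map_one, toAdd_one, ← Nat.cast_smul_eq_nsmul ℚ, smul_eq_zero] at h1
      rcases h1 with h1 | h1
      · exact absurd (Nat.cast_eq_zero.1 h1) hn.ne'
      · exact Subtype.ext h1)
    refine ⟨s, fun b hb' => ?_⟩
    have h1 : ((⟨_, hWa i b hb'⟩, ⟨_, hWb i b hb'⟩) : W × W) ∈ Γ :=
      ⟨1, Nat.one_pos, b, hb', one_smul _ _, one_smul _ _⟩
    have h2 := hs _ h1
    have h3 : π (f0 (α i b)).toAdd = ⟨_, hWa i b hb'⟩ := hπ' ⟨_, hWa i b hb'⟩
    have h4 : π (f0 (β i b)).toAdd = ⟨_, hWb i b hb'⟩ := hπ' ⟨_, hWb i b hb'⟩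
    rw [h3, h4]
    exact h2
  choose s hs using hs
  let f : M →* (Module.End ℚ (ℚ × W))ˣ := (aff π f0).toHomUnits
  let p : I → (Module.End ℚ (ℚ × W))ˣ := fun i =>
    LinearMap.GeneralLinearGroup.ofLinearEquiv ((LinearEquiv.refl ℚ ℚ).prodCongr (s i))
  refine ⟨_, inferInstance, f, p, C_end hC.base hgl, ?_, ?_⟩
  · intro i b hb'
    rw [mul_inv_eq_iff_eq_mul]
    refine Units.ext (LinearMap.ext fun v => ?_)
    show ((v.1, s i (v.2 + v.1 • π (f0 (α i b)).toAdd)) : ℚ × W) =
      (v.1, s i v.2 + v.1 • π (f0 (β i b)).toAdd)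
    rw [map_add, map_smul, hs i b (Subgroup.subset_closure hb')]
  · intro i b hb' h1
    have h2 : aff π f0 (α i b) = 1 := congrArg Units.val h1
    have h3 := LinearMap.congr_fun h2 ((1 : ℚ), (0 : W))
    have h4 : (0 : W) + (1 : ℚ) • π (f0 (α i b)).toAdd = 0 := congrArg Prod.snd h3
    rw [zero_add, one_smul] at h4
    have h5 : π (f0 (α i b)).toAdd = ⟨_, hWa i b hb'⟩ := hπ' ⟨_, hWa i b hb'⟩
    rw [h5] at h4
    have h6 : (f0 (α i b)).toAdd = 0 := congrArg Subtype.val h4
    exact ha i b (Multiplicative.toAdd.injective (by rw [toAdd_one]; exact h6))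

end

end Pool.Agent.R942.FJ
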