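import Pool.Agent.R942.FJ.Mab

/-!
# Free products of infinitely many groups, graphs of groups
-/

set_option autoImplicit false

namespace Pool.Agent.R942.FJ

open Pool.Agent.Y110.FJ Pool.Agent.R779.FJ
open Pool.Agent.Y462.SS (Closed)

/-- free products of finitely many groups -/
theorem C_coprodI_fin {C : ∀ (G : Type) [Group G], Prop} (hC : Closed C) (J : Type) [Finite J] :
    ∀ (G : J → Type) [∀ i, Group (G i)], (∀ i, C (G i)) → C (Monoid.CoprodI G) := by
  induction J using Finite.induction_empty_option with
  | of_equiv e ih =>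
    intro G _ hG
    let Ψ : Monoid.CoprodI (fun a => G (e a)) →* Monoid.CoprodI G :=
      Monoid.CoprodI.lift fun a => Monoid.CoprodI.of
    have hh : ∀ b, ∃ h : G b →* Monoid.CoprodI (fun a => G (e a)),
        ∀ x, Ψ (h x) = Monoid.CoprodI.of x := by
      intro b
      obtain ⟨a, rfl⟩ := e.surjective b
      exact ⟨Monoid.CoprodI.of (M := fun a => G (e a)) (i := a), fun x =>
        Monoid.CoprodI.lift_of (M := fun a => G (e a)) (i := a) _ _⟩
    choose h hh using hh
    let F : Monoid.CoprodI G →* Monoid.CoprodI (fun a => G (e a)) := Monoid.CoprodI.lift h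
    have hF : Function.LeftInverse Ψ F := by
      intro x
      have h1 : Ψ.comp F = MonoidHom.id _ := by
        refine Monoid.CoprodI.ext_hom _ _ fun b => MonoidHom.ext fun x => ?_
        show Ψ (F (Monoid.CoprodI.of x)) = Monoid.CoprodI.of x
        rw [show F (Monoid.CoprodI.of x) = h b x from Monoid.CoprodI.lift_of _ _]
        exact hh b x
      exact DFunLike.congr_fun h1 x
    exact hC.of_injective _ _ F hF.injective (ih (fun a => G (e a)) fun a => hG _)
  | h_empty =>
    intro G _ hG
    refine hC.of_injective _ _ (1 : Monoid.CoprodI G →* Multiplicative ℤ) ?_ hC.int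
    intro x y _
    have h1 : ∀ z : Monoid.CoprodI G, z = 1 := by
      intro z
      have h2 : MonoidHom.id (Monoid.CoprodI G) = 1 :=
        Monoid.CoprodI.ext_hom _ _ fun b => b.elim
      exact DFunLike.congr_fun h2 z
    rw [h1 x, h1 y]
  | @h_option J _ ih =>
    intro G _ hG
    let F : Monoid.CoprodI G →* Monoid.Coprod (Monoid.CoprodI fun a : J => G (some a)) (G none) :=
      Monoid.CoprodI.lift fun i => match i with
        | none => Monoid.Coprod.inr
        | some a => Monoid.Coprod.inl.comp (Monoid.CoprodI.of (M := fun a : J => G (some a)) (i := a))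
    let Ψ : Monoid.Coprod (Monoid.CoprodI fun a : J => G (some a)) (G none) →* Monoid.CoprodI G :=
      Monoid.Coprod.lift (Monoid.CoprodI.lift fun a => Monoid.CoprodI.of (M := G) (i := some a))
        (Monoid.CoprodI.of (M := G) (i := none))
    have hF : Function.LeftInverse Ψ F := by
      intro x
      have h1 : Ψ.comp F = MonoidHom.id _ := by
        refine Monoid.CoprodI.ext_hom _ _ fun b => MonoidHom.ext fun x => ?_
        show Ψ (F (Monoid.CoprodI.of x)) = Monoid.CoprodI.of x
        rw [Monoid.CoprodI.lift_of]
        match b with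
        | none => exact Monoid.Coprod.lift_apply_inr _ _ _
        | some a =>
          show Ψ (Monoid.Coprod.inl (Monoid.CoprodI.of x)) = _
          rw [Monoid.Coprod.lift_apply_inl]
          exact Monoid.CoprodI.lift_of (M := fun a : J => G (some a)) (i := a) _ _
      exact DFunLike.congr_fun h1 x
    exact hC.of_injective _ _ F hF.injective (hC.coprod _ _ (ih (fun a => G (some a)) fun a => hG _)
      (hG none))

/-- free products of any family of groups -/
theorem C_coprodI {C : ∀ (G : Type) [Group G], Prop} (hC : Closed C) (I : Type)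
    (G : I → Type) [∀ i, Group (G i)] (hG : ∀ i, C (G i)) : C (Monoid.CoprodI G) := by
  classical
  let Ψ : ∀ J : Finset I, Monoid.CoprodI (fun i : J => G i) →* Monoid.CoprodI G := fun J =>
    Monoid.CoprodI.lift fun i => Monoid.CoprodI.of (M := G) (i := (i : I))
  let r : ∀ J : Finset I, Monoid.CoprodI G →* Monoid.CoprodI (fun i : J => G i) := fun J =>
    Monoid.CoprodI.lift fun i => if h : i ∈ J then
      Monoid.CoprodI.of (M := fun i : J => G i) (i := ⟨i, h⟩) else 1
  have hr : ∀ J, Function.LeftInverse (r J) (Ψ J) := by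
    intro J x
    have h1 : (r J).comp (Ψ J) = MonoidHom.id _ := by
      refine Monoid.CoprodI.ext_hom _ _ fun i => MonoidHom.ext fun x => ?_
      show r J (Ψ J (Monoid.CoprodI.of (M := fun i : J => G i) (i := i) x)) =
        Monoid.CoprodI.of (M := fun i : J => G i) (i := i) x
      rw [show Ψ J (Monoid.CoprodI.of (M := fun i : J => G i) (i := i) x) =
        Monoid.CoprodI.of (M := G) (i := (i : I)) x from
        Monoid.CoprodI.lift_of (M := fun i : J => G i) (i := i) _ _]
      show (Monoid.CoprodI.lift _) (Monoid.CoprodI.of (M := G) (i := (i : I)) x) = _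
      rw [Monoid.CoprodI.lift_of, dif_pos i.2]
    exact DFunLike.congr_fun h1 x
  have hC1 : ∀ J : Finset I, C (Ψ J).range := by
    intro J
    have h1 := C_coprodI_fin hC J (fun i : J => G i) fun i => hG i
    exact hC.of_injective _ _ (MonoidHom.ofInjective (hr J).injective).symm.toMonoidHom
      (MonoidHom.ofInjective (hr J).injective).symm.injective h1
  have hmono : ∀ J J' : Finset I, J ≤ J' → (Ψ J).range ≤ (Ψ J').range := by
    rintro J J' h _ ⟨x, rfl⟩
    induction x using Monoid.CoprodI.induction_on with
    | one => rw [map_one]; exact one_mem _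
    | of i m =>
      refine ⟨Monoid.CoprodI.of (M := fun i : J' => G i) (i := ⟨i, h i.2⟩) m, ?_⟩
      show Monoid.CoprodI.lift _ _ = Monoid.CoprodI.lift _ _
      rw [Monoid.CoprodI.lift_of, Monoid.CoprodI.lift_of]
    | mul x y hx hy => rw [map_mul]; exact mul_mem hx hy
  refine Pool.Agent.Y430.SS.of_directed hC (Monoid.CoprodI G) (Finset I)
    (fun J J' => ⟨J ∪ J', Finset.subset_union_left, Finset.subset_union_right⟩)
    (fun J => (Ψ J).range) hmono ?_ hC1
  intro g
  induction g using Monoid.CoprodI.induction_on with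
  | one => exact ⟨∅, one_mem _⟩
  | of i m =>
    exact ⟨{i}, Monoid.CoprodI.of (M := fun j : ({i} : Finset I) => G j)
      (i := ⟨i, Finset.mem_singleton_self i⟩) m, Monoid.CoprodI.lift_of
      (M := fun j : ({i} : Finset I) => G j) (i := ⟨i, Finset.mem_singleton_self i⟩) _ _⟩
  | mul x y hx hy =>
    obtain ⟨J, hJ⟩ := hx
    obtain ⟨J', hJ'⟩ := hy
    exact ⟨J ∪ J', mul_mem (hmono J _ Finset.subset_union_left hJ)
      (hmono J' _ Finset.subset_union_right hJ')⟩

section graph

variable {Vt E : Type} {G : Vt → Type} [∀ v, Group (G v)] {B : E → Type} [∀ e, Group (B e)]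
  (o t : E → Vt) (a : ∀ e, B e →* G (o e)) (b : ∀ e, B e →* G (t e))

/-- Serre's group of the graph of groups with vertex groups `G v` and edge groups `B e`: it is generated
by the groups `G v` and elements `t_e` with the relations `t_e a_e(x) t_e⁻¹ = b_e(x)` for `x` in `B e` -/
abbrev GraphGrp : Type :=
  MH (M := Monoid.CoprodI G) (fun e => Monoid.CoprodI.of.comp (a e))
    (fun e => Monoid.CoprodI.of.comp (b e))

/-- graphs of groups whose edge groups are abelian and detected on the vertex groups -/
theorem graph_ab {C : ∀ (G : Type) [Group G], Prop} (hC : ClosedE C)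
    (hgl : ∀ n : ℕ, C (Matrix (Fin n) (Fin n) ℚ)ˣ) (hG : ∀ v, C (G v))
    (V : Vt → Type) [∀ v, AddCommGroup (V v)] [∀ v, Module ℚ (V v)]
    (f : ∀ v, G v →* Multiplicative (V v))
    (ha : ∀ e, Function.Injective ((f (o e)).comp (a e)))
    (hb : ∀ e, Function.Injective ((f (t e)).comp (b e))) : C (GraphGrp o t a b) := by
  classical
  let F : Monoid.CoprodI G →* Multiplicative (∀ v, V v) :=
    Monoid.CoprodI.lift fun v => (AddMonoidHom.toMultiplicative (AddMonoidHom.single V v)).comp (f v)
  have hF : ∀ v (x : G v), F (Monoid.CoprodI.of x) = 1 → f v x = 1 := by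
    intro v x h
    have h1 : Pi.single v (f v x).toAdd = (0 : ∀ v, V v) := by
      have h2 : F (Monoid.CoprodI.of x) = Multiplicative.ofAdd (Pi.single v (f v x).toAdd) :=
        Monoid.CoprodI.lift_of _ _
      rw [h2] at h
      exact h
    exact Multiplicative.toAdd.injective (Pi.single_eq_zero_iff.1 h1)
  have hof : ∀ v, Function.Injective (Monoid.CoprodI.of : G v →* Monoid.CoprodI G) := fun v =>
    Monoid.CoprodI.of_injective v
  refine mh_loc _ _ hC (C_coprodI hC.base Vt G hG) (fun e => (hof _).comp ?_) (fun e => (hof _).comp ?_)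
    (loc_ab _ _ hC hgl F (fun e x h => ?_) fun e x h => ?_)
  · exact Function.Injective.of_comp (ha e)
  · exact Function.Injective.of_comp (hb e)
  · refine ha e ?_
    rw [map_one]
    exact hF _ _ h
  · refine hb e ?_
    rw [map_one]
    exact hF _ _ h

end graph

end Pool.Agent.R942.FJ
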