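import Pool.Agent.R779.FJ.Col

/-!
# Kernels which are locally detected by homomorphisms to groups in the class
-/

set_option autoImplicit false

namespace Pool.Agent.R942.FJ

open Pool.Agent.Y110.FJ
open Pool.Agent.Y462.SS (Closed)

variable {C : ∀ (G : Type) [Group G], Prop}

/-- for each finite subset `E` of `N` there is a homomorphism of `N⟨g⟩` to a group in `C` which is
injective on the subgroup generated by `E` -/
def Detected (C : ∀ (G : Type) [Group G], Prop) {G : Type} [Group G] (N : Subgroup G) (g : G) : Prop :=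
  ∀ E : Set G, E.Finite → E ⊆ N → ∃ (P : Type) (_ : Group P) (f : ↥(N ⊔ Subgroup.zpowers g) →* P),
    C P ∧ ∀ x : ↥(N ⊔ Subgroup.zpowers g), (x : G) ∈ Subgroup.closure E → f x = 1 → x = 1

theorem main_detected (hC : ClosedE C) {G : Type} [Group G] (N : Subgroup G) [N.Normal]
    (h : ∀ g : G, Detected C N g) (hQ : C (G ⧸ N)) : C G := by
  refine Pool.Agent.R779.FJ.t_crit Pool.Agent.Y529.FJ.t_ext
    (Pool.Agent.Y961.FJ.t_perm Pool.Agent.Y529.FJ.t_ext) C hC G N hQ ?_
  intro g E hE hEN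
  have hE2N : E ∪ (fun x => g * x * g⁻¹) '' E ⊆ N := by
    rintro x (hx | ⟨y, hy, rfl⟩)
    · exact hEN hx
    · exact ‹N.Normal›.conj_mem y (hEN hy) g
  obtain ⟨P, hP, f, hCP, hf⟩ := h g _ (hE.union (hE.image _)) hE2N
  have hle : Subgroup.closure (E ∪ (fun x => g * x * g⁻¹) '' E) ≤ N ⊔ Subgroup.zpowers g :=
    ((Subgroup.closure_le N).2 hE2N).trans le_sup_left
  refine ⟨P, hP, f.comp (Subgroup.inclusion hle),
    f ⟨g, Subgroup.mem_sup_right (Subgroup.mem_zpowers g)⟩, hCP, ?_, ?_⟩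
  · rw [injective_iff_map_eq_one]
    intro x hx
    have h1 := hf (Subgroup.inclusion hle x) x.2 hx
    exact Subtype.ext (congrArg (fun z : ↥(N ⊔ Subgroup.zpowers g) => (z : G)) h1)
  · intro x y _ hy
    rw [← map_inv, MonoidHom.comp_apply, MonoidHom.comp_apply, ← map_mul, ← map_mul]
    congr 1
    exact Subtype.ext hy

/-! ### the derived series -/

/-- extensions of solvable groups by cyclic groups -/
theorem solv_sup {G : Type} [Group G] (L : Subgroup G) [L.Normal] (hL : Group.IsSolvable L) (x : G) :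
    Group.IsSolvable ↥(L ⊔ Subgroup.zpowers x) := by
  have h1 : L ⊔ Subgroup.zpowers x ≤
      (Subgroup.zpowers (QuotientGroup.mk' L x)).comap (QuotientGroup.mk' L) := by
    refine sup_le ?_ ?_
    · intro y hy
      have h2 : QuotientGroup.mk' L y = 1 := (QuotientGroup.eq_one_iff y).2 hy
      rw [Subgroup.mem_comap, h2]
      exact Subgroup.one_mem _
    · rw [Subgroup.zpowers_le]
      exact Subgroup.mem_zpowers _
  let φ : ↥(L ⊔ Subgroup.zpowers x) →* Subgroup.zpowers (QuotientGroup.mk' L x) :=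
    ((QuotientGroup.mk' L).comp (L ⊔ Subgroup.zpowers x).subtype).codRestrict _ fun y => h1 y.2
  have hs : Group.IsSolvable (Subgroup.zpowers (QuotientGroup.mk' L x)) :=
    Group.isSolvable_of_comm fun a b => by
      obtain ⟨k, hk⟩ := Subgroup.mem_zpowers_iff.1 a.2
      obtain ⟨l, hl⟩ := Subgroup.mem_zpowers_iff.1 b.2
      apply Subtype.ext
      rw [Subgroup.coe_mul, Subgroup.coe_mul, ← hk, ← hl, ← zpow_add, ← zpow_add, add_comm]
  refine Group.isSolvable_of_ker_le_range (Subgroup.inclusion (le_sup_left : L ≤ L ⊔ Subgroup.zpowers x)) φ ?_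
  intro y hy
  have h2 : QuotientGroup.mk' L (y : G) = 1 := congrArg Subtype.val hy
  exact ⟨⟨y, (QuotientGroup.eq_one_iff _).1 h2⟩, rfl⟩

theorem detected_derived (hsol : ∀ (S : Type) [Group S], Group.IsSolvable S → C S)
    {G : Type} [Group G] (N : Subgroup G) [N.Normal]
    (hN : ∀ E : Set N, E.Finite → ∃ k : ℕ, ∀ x ∈ Subgroup.closure E, x ∈ derivedSeries N k → x = 1)
    (g : G) : Detected C N g := by
  intro E hE hEN
  obtain ⟨k, hk⟩ := hN (N.subtype ⁻¹' E) (hE.preimage N.subtype_injective.injOn)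
  have hDn : ((derivedSeries N k).map N.subtype).Normal :=
    ConjAct.normal_of_characteristic_of_normal
  obtain ⟨D, hD⟩ : ∃ D : Subgroup G, D = (derivedSeries N k).map N.subtype := ⟨_, rfl⟩
  rw [← hD] at hDn
  have hLn : (N.map (QuotientGroup.mk' D)).Normal :=
    Subgroup.Normal.map inferInstance _ (QuotientGroup.mk'_surjective D)
  have hLs : Group.IsSolvable ↥(N.map (QuotientGroup.mk' D)) := by
    let φ : N →* N.map (QuotientGroup.mk' D) :=
      ((QuotientGroup.mk' D).comp N.subtype).codRestrict _ fun x => ⟨x, x.2, rfl⟩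
    have hφ : Function.Surjective φ := by
      rintro ⟨_, x, hx, rfl⟩
      exact ⟨⟨x, hx⟩, rfl⟩
    refine ⟨⟨k, ?_⟩⟩
    rw [← map_derivedSeries_eq hφ, eq_bot_iff]
    rintro _ ⟨x, hx, rfl⟩
    rw [Subgroup.mem_bot]
    apply Subtype.ext
    show QuotientGroup.mk' D (x : G) = 1
    refine (QuotientGroup.eq_one_iff _).2 ?_
    rw [hD]
    exact ⟨x, hx, rfl⟩
  have hHs := solv_sup (N.map (QuotientGroup.mk' D)) hLs (QuotientGroup.mk' D g)
  have hmem : ∀ x : ↥(N ⊔ Subgroup.zpowers g), QuotientGroup.mk' D (x : G) ∈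
      N.map (QuotientGroup.mk' D) ⊔ Subgroup.zpowers (QuotientGroup.mk' D g) := by
    intro x
    rw [← MonoidHom.map_zpowers, ← Subgroup.map_sup]
    exact ⟨x, x.2, rfl⟩
  refine ⟨_, inferInstance, ((QuotientGroup.mk' D).comp (N ⊔ Subgroup.zpowers g).subtype).codRestrict
    (N.map (QuotientGroup.mk' D) ⊔ Subgroup.zpowers (QuotientGroup.mk' D g)) hmem, hsol _ hHs, ?_⟩
  intro x hx hx1
  have h1 : QuotientGroup.mk' D (x : G) = 1 := congrArg Subtype.val hx1
  have h2 := (QuotientGroup.eq_one_iff _).1 h1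
  rw [hD] at h2
  obtain ⟨y, hy, hyx⟩ := h2
  have h3 : Subgroup.closure E = (Subgroup.closure (N.subtype ⁻¹' E)).map N.subtype := by
    rw [MonoidHom.map_closure, Set.image_preimage_eq_of_subset]
    intro z hz
    exact ⟨⟨z, hEN hz⟩, rfl⟩
  rw [h3] at hx
  obtain ⟨z, hz, hzx⟩ := hx
  have h4 : z = y := N.subtype_injective (hzx.trans hyx.symm)
  have h5 := hk z hz (h4 ▸ hy)
  rw [h5] at hzx
  exact Subtype.ext hzx.symm

end Pool.Agent.R942.FJ
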