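import Mathlib

/-!
# Subgroups of bounded length
-/

set_option autoImplicit false

namespace Pool.Agent.R942.FJ

variable {G : Type} [Group G]

/-- every chain of subgroups of `L`, each of infinite index in the preceding one, has length at most `n`
(for instance a polycyclic group of Hirsch length `n`) -/
def LenLe : ℕ → Subgroup G → Prop
  | 0, L => Finite L
  | n + 1, L => ∀ L' ≤ L, L'.relIndex L = 0 → LenLe n L'

/-- a family of kernels which separates the elements of `L`, with torsion-free quotients, contains a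
member that meets `L` trivially -/
theorem len_lemma (𝒦 : Set (Subgroup G)) (htop : ⊤ ∈ 𝒦) (hinf : ∀ N ∈ 𝒦, ∀ N' ∈ 𝒦, N ⊓ N' ∈ 𝒦)
    (n : ℕ) : ∀ L : Subgroup G, LenLe n L →
    (∀ x ∈ L, x ≠ 1 → ∃ N ∈ 𝒦, x ∉ N ∧ ∀ y ∈ L, ∀ k : ℕ, 0 < k → y ^ k ∈ N → y ∈ N) →
    ∃ N ∈ 𝒦, ∀ x ∈ L, x ∈ N → x = 1 := by
  induction n with
  | zero =>
    intro L hL h
    have hL' : Finite L := hL
    refine ⟨⊤, htop, fun x hx _ => ?_⟩
    by_contra hne
    obtain ⟨N, hN, hxN, hiso⟩ := h x hx hne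
    have h1 : IsOfFinOrder (⟨x, hx⟩ : L) := isOfFinOrder_of_finite _
    obtain ⟨k, hk, hxk⟩ := isOfFinOrder_iff_pow_eq_one.1 h1
    have h2 : x ^ k = 1 := congrArg Subtype.val hxk
    exact hxN (hiso x hx k hk (by rw [h2]; exact N.one_mem))
  | succ n ih =>
    intro L hL h
    by_cases hbot : ∀ x ∈ L, x = 1
    · exact ⟨⊤, htop, fun x hx _ => hbot x hx⟩
    · push Not at hbot
      obtain ⟨x, hx, hx1⟩ := hbot
      obtain ⟨N, hN, hxN, hiso⟩ := h x hx hx1
      have hidx : (N ⊓ L).relIndex L = 0 := by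
        by_contra hne
        obtain ⟨k, hk, -, hxk⟩ := Subgroup.exists_pow_mem_of_relIndex_ne_zero hne hx
        exact hxN (hiso x hx k hk (hxk.1).1)
      obtain ⟨N', hN', h'⟩ := ih (N ⊓ L) (hL (N ⊓ L) inf_le_right hidx) (by
        intro y hy hy1
        obtain ⟨N2, h2, h3, h4⟩ := h y hy.2 hy1
        exact ⟨N2, h2, h3, fun z hz => h4 z hz.2⟩)
      exact ⟨N ⊓ N', hinf N hN N' hN', fun y hy hyN => h' y ⟨hyN.1, hy⟩ hyN.2⟩

end Pool.Agent.R942.FJ
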