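import Pool.Agent.R779.FJ.Col

/-!
# Groups of units congruent to 1 modulo an ideal with local units
-/

set_option autoImplicit false
set_option linter.unusedSimpArgs false

namespace Pool.Agent.R942.FJ

open Pool.Agent.Y110.FJ

/-- `I` has local units: finite subsets of `I` lie in a corner `F S F` with `F ∈ I` idempotent -/
def LocalUnits {S : Type} [Ring S] (I : Ideal S) : Prop :=
  ∀ T : Set S, T.Finite → T ⊆ I → ∃ F ∈ I, IsIdempotentElem F ∧ ∀ x ∈ T, F * x = x ∧ x * F = x

section corner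

variable {S : Type} [Ring S] {F : S}

/-- the units `u` with `u - 1` in the corner `F S F` -/
def UF (F : S) : Subgroup Sˣ where
  carrier := {u | F * ((u : S) - 1) = (u : S) - 1 ∧ ((u : S) - 1) * F = (u : S) - 1}
  one_mem' := by simp
  mul_mem' := by
    rintro u v ⟨h1, h2⟩ ⟨h3, h4⟩
    have e : ((u * v : Sˣ) : S) - 1 = ((u : S) - 1) * ((v : S) - 1) + ((u : S) - 1) + ((v : S) - 1) := by
      push_cast
      noncomm_ring
    constructor
    · rw [e, mul_add, mul_add, ← mul_assoc, h1, h3]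
    · rw [e, add_mul, add_mul, mul_assoc, h2, h4]
  inv_mem' := by
    rintro u ⟨h1, h2⟩
    have e1 : ((u⁻¹ : Sˣ) : S) - 1 = - (((u : S) - 1) * ((u⁻¹ : Sˣ) : S)) := by
      rw [sub_mul, Units.mul_inv, one_mul, neg_sub]
    have e2 : ((u⁻¹ : Sˣ) : S) - 1 = - (((u⁻¹ : Sˣ) : S) * ((u : S) - 1)) := by
      rw [mul_sub, Units.inv_mul, mul_one, neg_sub]
    constructor
    · rw [e1, mul_neg, ← mul_assoc, h1]
    · rw [e2, neg_mul, mul_assoc, h2]

theorem mem_UF {u : Sˣ} : u ∈ UF F ↔ F * ((u : S) - 1) = (u : S) - 1 ∧ ((u : S) - 1) * F = (u : S) - 1 :=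
  Iff.rfl

variable (hF : IsIdempotentElem F)

/-- elements of the corner -/
def ck (x : S) (h : F * x = x ∧ x * F = x) : hF.Corner := ⟨x, (Subsemigroup.mem_corner_iff hF).2 h⟩

theorem ck_val (x : S) (h : F * x = x ∧ x * F = x) : (ck hF x h).1 = x := rfl

theorem cext {x y : hF.Corner} (h : x.1 = y.1) : x = y := Subtype.ext h

theorem add_val (x y : hF.Corner) : (x + y).1 = x.1 + y.1 := rfl
theorem mul_val (x y : hF.Corner) : (x * y).1 = x.1 * y.1 := rfl
theorem sub_val (x y : hF.Corner) : (x - y).1 = x.1 - y.1 := rfl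
theorem one_val : (1 : hF.Corner).1 = F := rfl
theorem zero_val : (0 : hF.Corner).1 = 0 := rfl

/-- `u ↦ F u F` on `UF F` -/
def cn : UF F →* hF.Corner where
  toFun u := 1 + ck hF (((u : Sˣ) : S) - 1) u.2
  map_one' := by
    apply cext
    rw [add_val, ck_val]
    simp
  map_mul' u v := by
    have h1 := u.2.1
    have h2 := u.2.2
    have h3 := v.2.1
    have h4 := v.2.2
    apply cext
    simp only [add_val, mul_val, ck_val, one_val, mul_add, add_mul, h2, h3]
    have e : (((u * v : UF F) : Sˣ) : S) - 1 = (((u : Sˣ) : S) - 1) * (((v : Sˣ) : S) - 1) +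
        (((u : Sˣ) : S) - 1) + (((v : Sˣ) : S) - 1) := by
      push_cast
      noncomm_ring
    rw [e, hF.eq]
    abel

/-- `u ↦ diag(F u F, F)` -/
def dg : UF F →* (Matrix (Fin 2) (Fin 2) hF.Corner)ˣ :=
  MonoidHom.toHomUnits
    { toFun := fun u => !![cn hF u, 0; 0, 1]
      map_one' := by
        rw [map_one]
        exact Matrix.one_fin_two.symm
      map_mul' := fun u v => by
        rw [map_mul, Matrix.mul_fin_two]
        simp }

theorem dg_val (u : UF F) : ((dg hF u : (Matrix (Fin 2) (Fin 2) hF.Corner)ˣ) :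
    Matrix (Fin 2) (Fin 2) hF.Corner) = !![cn hF u, 0; 0, 1] := rfl

theorem dg_inj : Function.Injective (dg hF) := by
  intro u v h
  have h1 := congrArg Units.val h
  rw [dg_val, dg_val] at h1
  have h2 := congrFun (congrFun h1 0) 0
  have h3 : cn hF u = cn hF v := by simpa using h2
  have h4 : ck hF (((u : Sˣ) : S) - 1) u.2 = ck hF (((v : Sˣ) : S) - 1) v.2 := add_left_cancel h3
  have h5 : (((u : Sˣ) : S) - 1) = (((v : Sˣ) : S) - 1) := congrArg Subtype.val h4
  exact Subtype.ext (Units.ext (sub_left_injective h5))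

/-- the matrix which conjugates `f` to `f'` -/
def tw (f f' a b : S) (hf : F * f = f ∧ f * F = f) (hf' : F * f' = f' ∧ f' * F = f')
    (ha : F * a = a ∧ a * F = a) (hb : F * b = b ∧ b * F = b)
    (h1 : b * a = f') (h2 : a * b = f) (h3 : b * f = b) (h4 : f' * b = b) (h5 : f * a = a)
    (h6 : a * f' = a) (hff : f * f = f) (hff' : f' * f' = f') :
    (Matrix (Fin 2) (Fin 2) hF.Corner)ˣ where
  val := !![ck hF b hb, 1 - ck hF f' hf'; 1 - ck hF f hf, ck hF a ha]
  inv := !![ck hF a ha, 1 - ck hF f hf; 1 - ck hF f' hf', ck hF b hb]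
  val_inv := by
    rw [Matrix.mul_fin_two, Matrix.one_fin_two]
    congr 1
    ext i j
    fin_cases i <;> fin_cases j <;> apply cext <;>
      simp [add_val, mul_val, sub_val, one_val, zero_val, ck_val, mul_sub, sub_mul, h1, h2, h3, h4, h5,
        h6, hff, hff', hF.eq, ha.1, ha.2, hb.1, hb.2, hf.1, hf.2, hf'.1, hf'.2]
  inv_val := by
    rw [Matrix.mul_fin_two, Matrix.one_fin_two]
    congr 1
    ext i j
    fin_cases i <;> fin_cases j <;> apply cext <;>
      simp [add_val, mul_val, sub_val, one_val, zero_val, ck_val, mul_sub, sub_mul, h1, h2, h3, h4, h5,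
        h6, hff, hff', hF.eq, ha.1, ha.2, hb.1, hb.2, hf.1, hf.2, hf'.1, hf'.2]

end corner

end Pool.Agent.R942.FJ
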