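import Pool.Agent.R942.FJ.Len
import Pool.Agent.R941.FJ.EdgeHnn
import Pool.Agent.R665.FJ.Hn

/-!
# Amalgamated products and HNN extensions whose edge groups are locally detected
-/

set_option autoImplicit false

namespace Pool.Agent.R942.FJ

open Pool.Agent.Y110.FJ Pool.Agent.R941.FJ
open Pool.Agent.Y462.SS (Closed)
open Monoid

variable {C : ∀ (G : Type) [Group G], Prop}

theorem C_eq (hC : ClosedE C) {G H : Type} [Group G] [Group H] (e : G ≃* H) (h : C G) : C H :=
  hC.base.of_injective _ _ e.symm.toMonoidHom e.symm.injective h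

/-! ### amalgamated products -/

section amalgam

variable {G : Type} [Group G] (A B K : Subgroup G)

/-- homomorphisms `f : A → P` and `g : B → P` which agree on the elements of `E` -/
def Agree (E : Set G) {P : Type} [Group P] (f : A →* P) (g : B →* P) : Prop :=
  ∀ (a : A) (b : B), (a : G) = b → (a : G) ∈ E → f a = g b

/-- for every finite subset `E` of `K` there are a group `P` in `C` and homomorphisms `A → P ← B` which
agree on `E` and are injective on the subgroup generated by `E` -/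
def LocAm (C : ∀ (G : Type) [Group G], Prop) : Prop :=
  ∀ E : Set G, E.Finite → E ⊆ K → ∃ (P : Type) (_ : Group P) (f : A →* P) (g : B →* P),
    C P ∧ Agree A B E f g ∧ ∀ a : A, (a : G) ∈ Subgroup.closure E → f a = 1 → a = 1

theorem agree_closure (hKA : K ≤ A) (hKB : K ≤ B) (E : Set G) (hE : E ⊆ K) {P : Type} [Group P]
    (f : A →* P) (g : B →* P) (h : Agree A B E f g) : Agree A B (Subgroup.closure E) f g := by
  let S : Subgroup G :=
    { carrier := {x | ∃ (hA : x ∈ A) (hB : x ∈ B), f ⟨x, hA⟩ = g ⟨x, hB⟩}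
      one_mem' := ⟨A.one_mem, B.one_mem, by
        rw [show (⟨1, A.one_mem⟩ : A) = 1 from rfl, show (⟨1, B.one_mem⟩ : B) = 1 from rfl, map_one,
          map_one]⟩
      mul_mem' := by
        rintro x y ⟨h1, h2, h3⟩ ⟨h4, h5, h6⟩
        refine ⟨mul_mem h1 h4, mul_mem h2 h5, ?_⟩
        rw [show (⟨x * y, mul_mem h1 h4⟩ : A) = ⟨x, h1⟩ * ⟨y, h4⟩ from rfl,
          show (⟨x * y, mul_mem h2 h5⟩ : B) = ⟨x, h2⟩ * ⟨y, h5⟩ from rfl, map_mul, map_mul, h3, h6]
      inv_mem' := by
        rintro x ⟨h1, h2, h3⟩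
        refine ⟨inv_mem h1, inv_mem h2, ?_⟩
        rw [show (⟨x⁻¹, inv_mem h1⟩ : A) = ⟨x, h1⟩⁻¹ from rfl,
          show (⟨x⁻¹, inv_mem h2⟩ : B) = ⟨x, h2⟩⁻¹ from rfl, map_inv, map_inv, h3] }
  have hS : Subgroup.closure E ≤ S := by
    rw [Subgroup.closure_le]
    intro x hx
    exact ⟨hKA (hE hx), hKB (hE hx), h ⟨x, hKA (hE hx)⟩ ⟨x, hKB (hE hx)⟩ rfl hx⟩
  intro a b hab ha
  obtain ⟨h1, h2, h3⟩ := hS ha
  rw [show a = ⟨(a : G), h1⟩ from rfl, show b = ⟨(a : G), h2⟩ from Subtype.ext hab.symm, h3]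

theorem fin_step' (hC : ClosedE C) (hAmg : Amg A B K) (E : Set G) (hEK : E ⊆ K) (hA : C A) (hB : C B)
    {P : Type} [Group P] (hP : C P) (f : A →* P) (g : B →* P) (hfg : Agree A B E f g)
    (hinj : ∀ a : A, (a : G) ∈ Subgroup.closure E → f a = 1 → a = 1) {Q : Type} [Group Q]
    (q : Coprod A B →* Q) (hq : Function.Surjective q)
    (hker : q.ker = Subgroup.normalClosure (relA A B (Subgroup.closure E))) : C Q := by
  obtain ⟨L, hLdef⟩ : ∃ L : Subgroup G, L = Subgroup.closure E := ⟨_, rfl⟩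
  have hL : L ≤ K := by rw [hLdef]; exact (Subgroup.closure_le K).2 hEK
  have hfg' : Agree A B L f g := by
    rw [hLdef]
    exact agree_closure A B K hAmg.le_left hAmg.le_right E hEK f g hfg
  rw [← hLdef] at hker hinj
  have hrel : ∀ (a : A) (b : B), (a : G) = b → (a : G) ∈ L → q (Coprod.inl a) = q (Coprod.inr b) := by
    intro a b hab ha
    have h1 : Coprod.inl a * (Coprod.inr b)⁻¹ ∈ q.ker := by
      rw [hker]
      exact Subgroup.subset_normalClosure ⟨a, b, hab, ha, rfl⟩
    have h2 : q (Coprod.inl a * (Coprod.inr b)⁻¹) = 1 := h1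
    rwa [map_mul, map_inv, mul_inv_eq_one] at h2
  obtain ⟨p, hp⟩ := desc q hq (toG A B) (by
    rw [hker]
    refine Subgroup.normalClosure_le_normal (relA_le A B _ L fun a b hab _ => ?_)
    rw [toG_inl, toG_inr, hab])
  obtain ⟨F, hF⟩ := desc q hq (Coprod.lift f g) (by
    rw [hker]
    refine Subgroup.normalClosure_le_normal (relA_le A B _ L fun a b hab ha => ?_)
    rw [Coprod.lift_apply_inl, Coprod.lift_apply_inr]
    exact hfg' a b hab ha)
  have hinjA : Function.Injective (q.comp Coprod.inl : A →* Q) := by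
    intro a a' h
    have h1 := congrArg p h
    rw [MonoidHom.comp_apply, MonoidHom.comp_apply, hp, hp, toG_inl, toG_inl] at h1
    exact Subtype.ext h1
  have hinjB : Function.Injective (q.comp Coprod.inr : B →* Q) := by
    intro a a' h
    have h1 := congrArg p h
    rw [MonoidHom.comp_apply, MonoidHom.comp_apply, hp, hp, toG_inr, toG_inr] at h1
    exact Subtype.ext h1
  refine Pool.Agent.R665.FJ.am hC (q.comp Coprod.inl : A →* Q).range
    (q.comp Coprod.inr : B →* Q).range ((L.subgroupOf A).map (q.comp Coprod.inl : A →* Q))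
    (C_eq hC (MonoidHom.ofInjective hinjA) hA) (C_eq hC (MonoidHom.ofInjective hinjB) hB) hP
    ⟨?_, ?_, ?_, ?_⟩ F ?_
  · rintro _ ⟨a, _, rfl⟩
    exact ⟨a, rfl⟩
  · rintro _ ⟨a, ha, rfl⟩
    have hb : (a : G) ∈ B := hAmg.le_right (hL ha)
    exact ⟨⟨a, hb⟩, (hrel a ⟨a, hb⟩ rfl ha).symm⟩
  · rw [eq_top_iff]
    intro x _
    obtain ⟨y, rfl⟩ := hq x
    induction y using Coprod.induction_on with
    | inl a => exact Subgroup.mem_sup_left ⟨a, rfl⟩
    | inr b => exact Subgroup.mem_sup_right ⟨b, rfl⟩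
    | mul x y hx hy =>
      rw [map_mul]
      exact mul_mem (hx trivial) (hy trivial)
  · intro H _ f g hfg
    obtain ⟨h, hh⟩ := desc q hq (Coprod.lift
      (f.comp (q.comp Coprod.inl : A →* Q).rangeRestrict)
      (g.comp (q.comp Coprod.inr : B →* Q).rangeRestrict)) (by
      rw [hker]
      refine Subgroup.normalClosure_le_normal (relA_le A B _ L fun a b hab ha => ?_)
      rw [Coprod.lift_apply_inl, Coprod.lift_apply_inr]
      have h1 := hfg (q (Coprod.inl a)) ⟨a, ha, rfl⟩
      refine Eq.trans h1 ?_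
      show g _ = g _
      congr 1
      exact Subtype.ext (hrel a b hab ha))
    refine ⟨h, ?_, ?_⟩
    · rintro ⟨_, a, rfl⟩
      have h1 := hh (Coprod.inl a)
      rw [Coprod.lift_apply_inl] at h1
      exact h1
    · rintro ⟨_, a, rfl⟩
      have h1 := hh (Coprod.inr a)
      rw [Coprod.lift_apply_inr] at h1
      exact h1
  · rintro _ ⟨a, ha, rfl⟩ h1
    have h2 : F (q (Coprod.inl a)) = 1 := h1
    rw [hF, Coprod.lift_apply_inl] at h2
    rw [hinj a ha h2, map_one]

/-- **amalgamated products** -/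
theorem amg_loc (hC : ClosedE C) (hAmg : Amg A B K) (hloc : LocAm A B K C) (hA : C A) (hB : C B) :
    C G := by
  classical
  have h1 : C (Coprod A B ⧸ Subgroup.normalClosure
      (⋃ S : Finset K, relA A B (Subgroup.closure (Subtype.val '' (S : Set K))))) := by
    refine colim_quot hC.base
      (fun i j => ⟨i ∪ j, Finset.subset_union_left, Finset.subset_union_right⟩)
      _ (fun i j hij => ?_) fun S => ?_
    · rintro _ ⟨a, b, hab, ha, rfl⟩
      exact ⟨a, b, hab, Subgroup.closure_mono (Set.image_mono (by exact_mod_cast hij)) ha, rfl⟩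
    · have hE : Subtype.val '' (S : Set K) ⊆ (K : Set G) := by
        rintro _ ⟨x, _, rfl⟩
        exact x.2
      obtain ⟨P, _, f, g, hP, hfg, hinj⟩ := hloc _ (S.finite_toSet.image _) hE
      exact fin_step' A B K hC hAmg _ hE hA hB hP f g hfg hinj (QuotientGroup.mk' _)
        (QuotientGroup.mk'_surjective _) (QuotientGroup.ker_mk' _)
  obtain ⟨R, hR⟩ : ∃ R : Set (Coprod A B), R = ⋃ S : Finset K,
    relA A B (Subgroup.closure (Subtype.val '' (S : Set K))) := ⟨_, rfl⟩
  rw [← hR] at h1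
  obtain ⟨Q, _, q, hq, hker, hCQ⟩ : ∃ (Q : Type) (_ : Group Q) (q : Coprod A B →* Q),
      Function.Surjective q ∧ q.ker = Subgroup.normalClosure R ∧ C Q :=
    ⟨_, inferInstance, QuotientGroup.mk' _, QuotientGroup.mk'_surjective _,
      QuotientGroup.ker_mk' _, h1⟩
  obtain ⟨h, hh1, hh2⟩ := hAmg.univ _ (q.comp Coprod.inl) (q.comp Coprod.inr) (by
    intro c hc
    have h2 : Coprod.inl ⟨c, hAmg.le_left hc⟩ * (Coprod.inr ⟨c, hAmg.le_right hc⟩)⁻¹ ∈ q.ker := by
      rw [hker]
      refine Subgroup.subset_normalClosure ?_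
      rw [hR]
      refine Set.mem_iUnion.2 ⟨{⟨c, hc⟩}, _, _, rfl, Subgroup.subset_closure ?_, rfl⟩
      exact ⟨⟨c, hc⟩, by simp, rfl⟩
    have h3 : q (Coprod.inl ⟨c, hAmg.le_left hc⟩ * (Coprod.inr ⟨c, hAmg.le_right hc⟩)⁻¹) = 1 := h2
    rwa [map_mul, map_inv, mul_inv_eq_one] at h3)
  obtain ⟨f, hf⟩ := desc q hq (toG A B) (by
    rw [hker, hR]
    refine Subgroup.normalClosure_le_normal (Set.iUnion_subset fun _ =>
      relA_le A B _ _ fun a b hab _ => ?_)
    rw [toG_inl, toG_inr, hab])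
  have hinj : Function.Injective h := by
    have h4 : (⊤ : Subgroup G) ≤ MonoidHom.eqLocus (f.comp h) (MonoidHom.id G) := by
      rw [← hAmg.gen]
      refine sup_le ?_ ?_
      · intro a ha
        show f (h a) = a
        rw [hh1 ⟨a, ha⟩, MonoidHom.comp_apply, hf, toG_inl]
      · intro a ha
        show f (h a) = a
        rw [hh2 ⟨a, ha⟩, MonoidHom.comp_apply, hf, toG_inr]
    intro x y hxy
    have h5 : f (h x) = f (h y) := by rw [hxy]
    have h6 : ∀ z, f (h z) = z := fun z => h4 (Subgroup.mem_top z)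
    rwa [h6, h6] at h5
  exact hC.base.of_injective _ _ h hinj hCQ

end amalgam

end Pool.Agent.R942.FJ
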