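import Pool.Agent.R942.FJ.LocEdge

/-!
# HNN extensions whose associated subgroups are locally detected; residual conditions
-/

set_option autoImplicit false

namespace Pool.Agent.R942.FJ

open Pool.Agent.Y110.FJ Pool.Agent.R941.FJ
open Pool.Agent.Y462.SS (Closed)
open Monoid

variable {C : ∀ (G : Type) [Group G], Prop}

/-- no element besides `1` has finite order -/
def TorFree (P : Type) [Group P] : Prop := ∀ x : P, ∀ k : ℕ, 0 < k → x ^ k = 1 → x = 1

/-! ### HNN extensions -/

section hnn

variable {M : Type} [Group M] (A B : Subgroup M) (φ : A ≃* B)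

/-- `s` conjugates `f a` to `f (φ a)` for the elements of `E` -/
def Conj (E : Set M) {P : Type} [Group P] (f : M →* P) (s : P) : Prop :=
  ∀ a : A, (a : M) ∈ E → s * f (a : M) = f ((φ a : B) : M) * s

/-- for every finite subset `E` of `A` there are a group `P` in `C`, a homomorphism `f : M → P` and an
element `s` of `P` which conjugates `f a` to `f (φ a)` for `a` in `E`, such that `f` is injective on the
subgroup generated by `E` -/
def LocHnn (C : ∀ (G : Type) [Group G], Prop) : Prop :=
  ∀ E : Set M, E.Finite → E ⊆ A → ∃ (P : Type) (_ : Group P) (f : M →* P) (s : P),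
    C P ∧ Conj A B φ E f s ∧ ∀ x ∈ Subgroup.closure E, f x = 1 → x = 1

theorem conj_closure (E : Set M) (hE : E ⊆ A) {P : Type} [Group P] (f : M →* P) (s : P)
    (h : Conj A B φ E f s) : Conj A B φ (Subgroup.closure E) f s := by
  let S : Subgroup A :=
    { carrier := {a | s * f (a : M) = f ((φ a : B) : M) * s}
      one_mem' := by simp
      mul_mem' := by
        intro x y hx hy
        show s * f ((x * y : A) : M) = f ((φ (x * y) : B) : M) * s
        have hx' : s * f (x : M) = f ((φ x : B) : M) * s := hx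
        have hy' : s * f (y : M) = f ((φ y : B) : M) * s := hy
        rw [map_mul φ, Subgroup.coe_mul, Subgroup.coe_mul, map_mul, map_mul, ← mul_assoc, hx',
          mul_assoc, hy', mul_assoc]
      inv_mem' := by
        intro x hx
        show s * f ((x⁻¹ : A) : M) = f ((φ x⁻¹ : B) : M) * s
        have hx' : s * f (x : M) = f ((φ x : B) : M) * s := hx
        rw [map_inv φ, Subgroup.coe_inv, Subgroup.coe_inv, map_inv, map_inv, eq_inv_mul_iff_mul_eq,
          ← mul_assoc, ← hx', mul_inv_cancel_right] }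
  have hS : Subgroup.closure E ≤ S.map A.subtype := by
    rw [Subgroup.closure_le]
    intro x hx
    exact ⟨⟨x, hE hx⟩, h ⟨x, hE hx⟩ hx, rfl⟩
  intro a ha
  obtain ⟨b, hb, hba⟩ := hS ha
  rw [← A.subtype_injective hba]
  exact hb

/-- **HNN extensions** -/
theorem hnn_loc (hC : ClosedE C) (hloc : LocHnn A B φ C) (hM : C M) : C (HNNExtension M A B φ) := by
  classical
  have h1 : C (Coprod M (Multiplicative ℤ) ⧸ Subgroup.normalClosure
      (⋃ S : Finset A, relH A B φ (Subgroup.closure (Subtype.val '' (S : Set A))))) := by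
    refine colim_quot hC.base
      (fun i j => ⟨i ∪ j, Finset.subset_union_left, Finset.subset_union_right⟩)
      _ (fun i j hij => ?_) fun S => ?_
    · rintro _ ⟨a, ha, rfl⟩
      exact ⟨a, Subgroup.closure_mono (Set.image_mono (by exact_mod_cast hij)) ha, rfl⟩
    · have hE : Subtype.val '' (S : Set A) ⊆ (A : Set M) := by
        rintro _ ⟨x, _, rfl⟩
        exact x.2
      have hle : Subgroup.closure (Subtype.val '' (S : Set A)) ≤ A := (Subgroup.closure_le A).2 hE
      obtain ⟨P, _, f, s, hP, hfs, hinj⟩ := hloc _ (S.finite_toSet.image _) hE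
      have hfs' := conj_closure A B φ _ hE f s hfs
      refine hnn_quot A B φ hC.base _ hle HNNExtension.of HNNExtension.t
        (fun a => HNNExtension.t_mul_of (φ := resφ A B φ _ hle) a)
        (fun Q _ f s hs => hnn_lift _ _ (resφ A B φ _ hle) Q f s hs)
        ?_ (QuotientGroup.mk' _)
        (QuotientGroup.mk'_surjective _) (QuotientGroup.ker_mk' _)
      refine Pool.Agent.R665.FJ.hn hC hM hP (HNNExtension.lift f s fun a => ?_) ?_
      · exact hfs' ⟨(a : M), hle a.2⟩ a.2
      · intro a ha h2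
        rw [HNNExtension.lift_of] at h2
        exact hinj a ha h2
  obtain ⟨R, hR⟩ : ∃ R : Set (Coprod M (Multiplicative ℤ)), R = ⋃ S : Finset A,
    relH A B φ (Subgroup.closure (Subtype.val '' (S : Set A))) := ⟨_, rfl⟩
  rw [← hR] at h1
  obtain ⟨Q, _, q, hq, hker, hCQ⟩ : ∃ (Q : Type) (_ : Group Q)
      (q : Coprod M (Multiplicative ℤ) →* Q),
      Function.Surjective q ∧ q.ker = Subgroup.normalClosure R ∧ C Q :=
    ⟨_, inferInstance, QuotientGroup.mk' _, QuotientGroup.mk'_surjective _,
      QuotientGroup.ker_mk' _, h1⟩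
  obtain ⟨g, hg1, hg2⟩ := hnn_lift A B φ Q (q.comp Coprod.inl) (q tt) (by
    intro a
    refine relH_rel A B φ q a ?_
    rw [hker, hR]
    refine Subgroup.subset_normalClosure ?_
    refine Set.mem_iUnion.2 ⟨{a}, a, Subgroup.subset_closure ?_, rfl⟩
    exact ⟨a, by simp, rfl⟩)
  obtain ⟨u, hut, huo⟩ := exists_u (HNNExtension.of : M →* HNNExtension M A B φ) HNNExtension.t
  obtain ⟨f, hf⟩ := desc q hq u (by
    rw [hker, hR]
    refine Subgroup.normalClosure_le_normal (Set.iUnion_subset fun _ =>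
      relH_le A B φ u _ fun a ha => ?_)
    rw [hut, huo, huo]
    exact HNNExtension.t_mul_of (φ := φ) a)
  refine hC.base.of_injective _ _ g ?_ hCQ
  have h3 : f.comp g = MonoidHom.id _ := by
    apply HNNExtension.hom_ext
    · ext x
      show f (g (HNNExtension.of x)) = HNNExtension.of x
      rw [hg1, MonoidHom.comp_apply, hf, huo]
    · show f (g HNNExtension.t) = HNNExtension.t
      rw [hg2, hf, hut]
  exact Function.LeftInverse.injective fun x => DFunLike.congr_fun h3 x

end hnn

/-! ### residual conditions -/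

/-- the finitely generated subgroups of `K` have bounded length -/
def LocLen {G : Type} [Group G] (K : Subgroup G) : Prop :=
  ∀ E : Set G, E.Finite → E ⊆ K → ∃ n, LenLe n (Subgroup.closure E)

section amalgam

variable {G : Type} [Group G] (A B K : Subgroup G)

/-- for every finite subset `E` of `K`, the elements besides `1` of the subgroup generated by `E` are not
mapped to `1` by suitable homomorphisms `A → P ← B` to a torsion-free group `P` in `C` which agree on `E` -/
def ResAm (C : ∀ (G : Type) [Group G], Prop) : Prop :=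
  ∀ E : Set G, E.Finite → E ⊆ K → ∀ a : A, (a : G) ∈ Subgroup.closure E → a ≠ 1 →
    ∃ (P : Type) (_ : Group P) (f : A →* P) (g : B →* P), C P ∧ TorFree P ∧ Agree A B E f g ∧ f a ≠ 1

theorem locAm_of_res (hC : Closed C) (hKA : K ≤ A) (hlen : LocLen K) (hres : ResAm A B K C) :
    LocAm A B K C := by
  intro E hE hEK
  obtain ⟨n, hn⟩ := hlen E hE hEK
  have hEA : Subgroup.closure E ≤ A := ((Subgroup.closure_le K).2 hEK).trans hKA
  suffices hkey : ∃ N ∈ {N : Subgroup G | ∃ (P : Type) (_ : Group P) (f : A →* P) (g : B →* P),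
      C P ∧ Agree A B E f g ∧ ∀ x : A, (x : G) ∈ Subgroup.closure E → ((x : G) ∈ N ↔ f x = 1)},
      ∀ x ∈ Subgroup.closure E, x ∈ N → x = 1 by
    obtain ⟨N, ⟨P, _, f, g, hP, hfg, hN⟩, hN'⟩ := hkey
    refine ⟨P, inferInstance, f, g, hP, hfg, fun a ha h => ?_⟩
    exact Subtype.ext (hN' a ha ((hN a ha).2 h))
  refine len_lemma _ ?_ ?_ n (Subgroup.closure E) hn ?_
  · exact ⟨Multiplicative ℤ, inferInstance, 1, 1, hC.int, fun _ _ _ _ => rfl, fun x _ => by simp⟩
  · rintro N ⟨P, _, f, g, hP, hfg, hN⟩ N' ⟨P', _, f', g', hP', hfg', hN'⟩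
    refine ⟨P × P', inferInstance, f.prod f', g.prod g', hC.prod P P' hP hP', ?_, ?_⟩
    · intro a b hab ha
      exact Prod.ext (hfg a b hab ha) (hfg' a b hab ha)
    · intro x hx
      rw [Subgroup.mem_inf, hN x hx, hN' x hx]
      exact ⟨fun h => Prod.ext h.1 h.2, fun h => ⟨congrArg Prod.fst h, congrArg Prod.snd h⟩⟩
  · intro x hx hx1
    obtain ⟨P, _, f, g, hP, hPt, hfg, hfx⟩ := hres E hE hEK ⟨x, hEA hx⟩ hx
      (fun h => hx1 (congrArg Subtype.val h))
    refine ⟨f.ker.map A.subtype, ⟨P, inferInstance, f, g, hP, hfg, fun y _ => ?_⟩, ?_, ?_⟩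
    · constructor
      · rintro ⟨z, hz, hzy⟩
        rw [← A.subtype_injective hzy]
        exact hz
      · intro h
        exact ⟨y, h, rfl⟩
    · rintro ⟨z, hz, hzx⟩
      refine hfx ?_
      rw [show (⟨x, hEA hx⟩ : A) = z from Subtype.ext hzx.symm]
      exact hz
    · rintro y hy k hk ⟨z, hz, hzy⟩
      refine ⟨⟨y, hEA hy⟩, ?_, rfl⟩
      have h1 : z = ⟨y, hEA hy⟩ ^ k := Subtype.ext hzy
      have h2 : f z = 1 := hz
      rw [h1, map_pow] at h2
      exact hPt _ k hk h2

end amalgam

section hnn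

variable {M : Type} [Group M] (A B : Subgroup M) (φ : A ≃* B)

/-- for every finite subset `E` of `A`, the elements besides `1` of the subgroup generated by `E` are not
mapped to `1` by suitable homomorphisms `f : M → P` to a torsion-free group `P` in `C` with an element
that conjugates `f a` to `f (φ a)` for `a` in `E` -/
def ResHnn (C : ∀ (G : Type) [Group G], Prop) : Prop :=
  ∀ E : Set M, E.Finite → E ⊆ A → ∀ x ∈ Subgroup.closure E, x ≠ 1 →
    ∃ (P : Type) (_ : Group P) (f : M →* P) (s : P), C P ∧ TorFree P ∧ Conj A B φ E f s ∧ f x ≠ 1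

theorem locHnn_of_res (hC : Closed C) (hlen : LocLen A) (hres : ResHnn A B φ C) :
    LocHnn A B φ C := by
  intro E hE hEA
  obtain ⟨n, hn⟩ := hlen E hE hEA
  suffices hkey : ∃ N ∈ {N : Subgroup M | ∃ (P : Type) (_ : Group P) (f : M →* P) (s : P),
      C P ∧ Conj A B φ E f s ∧ ∀ x : M, (x ∈ N ↔ f x = 1)},
      ∀ x ∈ Subgroup.closure E, x ∈ N → x = 1 by
    obtain ⟨N, ⟨P, _, f, s, hP, hfs, hN⟩, hN'⟩ := hkey
    refine ⟨P, inferInstance, f, s, hP, hfs, fun a ha h => ?_⟩
    exact hN' a ha ((hN a).2 h)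
  refine len_lemma _ ?_ ?_ n (Subgroup.closure E) hn ?_
  · exact ⟨Multiplicative ℤ, inferInstance, 1, 1, hC.int, fun _ _ => rfl, fun x => by simp⟩
  · rintro N ⟨P, _, f, s, hP, hfs, hN⟩ N' ⟨P', _, f', s', hP', hfs', hN'⟩
    refine ⟨P × P', inferInstance, f.prod f', (s, s'), hC.prod P P' hP hP', ?_, ?_⟩
    · intro a ha
      exact Prod.ext (hfs a ha) (hfs' a ha)
    · intro x
      rw [Subgroup.mem_inf, hN x, hN' x]
      exact ⟨fun h => Prod.ext h.1 h.2, fun h => ⟨congrArg Prod.fst h, congrArg Prod.snd h⟩⟩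
  · intro x hx hx1
    obtain ⟨P, _, f, s, hP, hPt, hfs, hfx⟩ := hres E hE hEA x hx hx1
    refine ⟨f.ker, ⟨P, inferInstance, f, s, hP, hfs, fun y => Iff.rfl⟩, hfx, ?_⟩
    intro y _ k hk hy
    have h2 : f (y ^ k) = 1 := hy
    rw [map_pow] at h2
    exact hPt _ k hk h2

end hnn

end Pool.Agent.R942.FJ
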