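import Pool.Agent.R942.FJ.Loc

/-!
# Groups of units congruent to 1 modulo an ideal with local units: the theorem
-/

set_option autoImplicit false
set_option linter.unusedSimpArgs false

namespace Pool.Agent.R942.FJ

open Pool.Agent.Y110.FJ

/-- `I` has local units `F` such that the general linear group `GL_2(F S F)` over the corner is in `C` -/
def LocalGL2 (C : ∀ (G : Type) [Group G], Prop) {S : Type} [Ring S] (I : Ideal S) : Prop :=
  ∀ T : Set S, T.Finite → T ⊆ I → ∃ F ∈ I, ∃ hF : IsIdempotentElem F, (∀ x ∈ T, F * x = x ∧ x * F = x) ∧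
    C (Matrix (Fin 2) (Fin 2) hF.Corner)ˣ

/-- conjugation by `g` on `N` is given, on each finite subset of `N`, by a partial isomorphism in `I` -/
def LocallyPartial {S : Type} [Ring S] (I : Ideal S) {G : Type} [Group G] (N : Subgroup G) [N.Normal]
    (ρ : N →* Sˣ) (g : G) : Prop :=
  ∀ E : Set N, E.Finite → ∃ a ∈ I, ∃ b ∈ I, a * b * a = a ∧ b * a * b = b ∧
    ∀ n ∈ E, a * b * ((ρ n : S) - 1) = (ρ n : S) - 1 ∧ ((ρ n : S) - 1) * (a * b) = (ρ n : S) - 1 ∧
      b * ((ρ n : S) - 1) * a = (ρ (MulAut.conjNormal g n) : S) - 1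

variable {C : ∀ (G : Type) [Group G], Prop}

theorem main_partial (hC : ClosedE C) {S : Type} [Ring S] {I : Ideal S} (hI : LocalGL2 C I)
    {G : Type} [Group G] (N : Subgroup G) [N.Normal] (ρ : N →* Sˣ) (hinj : Function.Injective ρ)
    (hloc : ∀ g : G, LocallyPartial I N ρ g) (hQ : C (G ⧸ N)) : C G := by
  refine Pool.Agent.R779.FJ.t_crit Pool.Agent.Y529.FJ.t_ext
    (Pool.Agent.Y961.FJ.t_perm Pool.Agent.Y529.FJ.t_ext) C hC G N hQ ?_
  intro g E hE hEN
  obtain ⟨a, haI, b, hbI, haba, hbab, hn⟩ := hloc g ((fun n : N => (n : G)) ⁻¹' E)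
    (hE.preimage Subtype.val_injective.injOn)
  obtain ⟨F, hFI, hF, hFT, hCF⟩ := hI {a, b} (by simp) (by
    intro x hx
    rcases hx with rfl | hx
    · exact haI
    · rw [Set.mem_singleton_iff.1 hx]; exact hbI)
  have ha := hFT a (by simp)
  have hb := hFT b (by simp)
  set L := Subgroup.closure (E ∪ (fun x => g * x * g⁻¹) '' E) with hL
  have hLN : L ≤ N := by
    rw [hL, Subgroup.closure_le]
    rintro x (hx | ⟨y, hy, rfl⟩)
    · exact hEN hx
    · exact ‹N.Normal›.conj_mem y (hEN hy) g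
  have hab1 : F * (a * b) = a * b := by rw [← mul_assoc, ha.1]
  have hab2 : a * b * F = a * b := by rw [mul_assoc, hb.2]
  have hba1 : F * (b * a) = b * a := by rw [← mul_assoc, hb.1]
  have hba2 : b * a * F = b * a := by rw [mul_assoc, ha.2]
  -- the elements of `E`
  have hE1 : ∀ (x : G) (hx : x ∈ E), ρ ⟨x, hEN hx⟩ ∈ UF F := by
    intro x hx
    obtain ⟨h1, h2, h3⟩ := hn ⟨x, hEN hx⟩ hx
    constructor
    · rw [← h1, ← mul_assoc, hab1]
    · rw [← h2, mul_assoc, hab2]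
  have hE2 : ∀ (x : G) (hx : x ∈ E), ρ (MulAut.conjNormal g ⟨x, hEN hx⟩) ∈ UF F := by
    intro x hx
    obtain ⟨h1, h2, h3⟩ := hn ⟨x, hEN hx⟩ hx
    constructor
    · rw [← h3, ← mul_assoc, ← mul_assoc, hb.1]
    · rw [← h3, mul_assoc, ha.2]
  have hU : ∀ x : L, (ρ.comp (Subgroup.inclusion hLN)) x ∈ UF F := by
    intro x
    have h4 : L ≤ ((UF F).comap ρ).map N.subtype := by
      rw [hL, Subgroup.closure_le]
      rintro x (hx | ⟨y, hy, rfl⟩)
      · exact ⟨⟨x, hEN hx⟩, hE1 x hx, rfl⟩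
      · exact ⟨MulAut.conjNormal g ⟨y, hEN hy⟩, hE2 y hy, by simp [MulAut.conjNormal_apply]⟩
    obtain ⟨z, hz, hz2⟩ := h4 x.2
    have h5 : z = Subgroup.inclusion hLN x := Subtype.ext hz2
    rw [h5] at hz
    exact hz
  let f0 : L →* UF F := (ρ.comp (Subgroup.inclusion hLN)).codRestrict (UF F) hU
  have hf0 : Function.Injective f0 := by
    intro x y h
    have h1 := congrArg (fun z : UF F => (z : Sˣ)) h
    have h2 : Subgroup.inclusion hLN x = Subgroup.inclusion hLN y := hinj h1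
    exact Subgroup.inclusion_injective hLN h2
  refine ⟨(Matrix (Fin 2) (Fin 2) hF.Corner)ˣ, inferInstance, (dg hF).comp f0,
    tw hF (a * b) (b * a) a b ⟨hab1, hab2⟩ ⟨hba1, hba2⟩ ha hb rfl rfl (by rw [← mul_assoc, hbab]) hbab
      haba (by rw [← mul_assoc, haba]) (by rw [← mul_assoc, haba]) (by rw [← mul_assoc, hbab]), hCF,
    (dg_inj hF).comp hf0, ?_⟩
  intro x y hx hy
  have hxN : Subgroup.inclusion hLN x = ⟨(x : G), hEN hx⟩ := Subtype.ext rfl
  have hyN : Subgroup.inclusion hLN y = MulAut.conjNormal g ⟨(x : G), hEN hx⟩ := by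
    apply Subtype.ext
    rw [MulAut.conjNormal_apply]
    exact hy
  obtain ⟨h1, h2, h3⟩ := hn ⟨(x : G), hEN hx⟩ hx
  have hx1 : ((f0 x : Sˣ) : S) = (ρ ⟨(x : G), hEN hx⟩ : S) := by
    show ((ρ (Subgroup.inclusion hLN x) : Sˣ) : S) = _
    rw [hxN]
  have hy1 : ((f0 y : Sˣ) : S) - 1 = b * ((ρ ⟨(x : G), hEN hx⟩ : S) - 1) * a := by
    show ((ρ (Subgroup.inclusion hLN y) : Sˣ) : S) - 1 = _
    rw [hyN, ← h3]
  rw [eq_mul_inv_iff_mul_eq]
  apply Units.ext
  rw [Units.val_mul, Units.val_mul]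
  show ((dg hF (f0 y) : (Matrix (Fin 2) (Fin 2) hF.Corner)ˣ) : Matrix (Fin 2) (Fin 2) hF.Corner) * _ =
    _ * ((dg hF (f0 x) : (Matrix (Fin 2) (Fin 2) hF.Corner)ˣ) : Matrix (Fin 2) (Fin 2) hF.Corner)
  rw [dg_val, dg_val]
  show _ * !![ck hF b hb, 1 - ck hF (b * a) _; 1 - ck hF (a * b) _, ck hF a ha] =
    !![ck hF b hb, 1 - ck hF (b * a) _; 1 - ck hF (a * b) _, ck hF a ha] * _
  rw [Matrix.mul_fin_two, Matrix.mul_fin_two]
  have cy : (cn hF (f0 y)).1 = F + b * ((ρ ⟨(x : G), hEN hx⟩ : S) - 1) * a := by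
    rw [← hy1]; rfl
  have cx : (cn hF (f0 x)).1 = F + ((ρ ⟨(x : G), hEN hx⟩ : S) - 1) := by
    rw [← hx1]; rfl
  set r : S := (ρ ⟨(x : G), hEN hx⟩ : S) - 1 with hr
  have e1 : b * r * a * b = b * r := by
    calc b * r * a * b = b * (r * (a * b)) := by noncomm_ring
      _ = b * r := by rw [h2]
  have e2 : b * r * a * (b * a) = b * r * a := by
    calc b * r * a * (b * a) = b * r * (a * b * a) := by noncomm_ring
      _ = b * r * a := by rw [haba]
  have e3 : b * r * a * F = b * r * a := by rw [mul_assoc, ha.2]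
  have e4 : F * r = r := by rw [← h1, ← mul_assoc, hab1]
  congr 1
  ext i j
  fin_cases i <;> fin_cases j <;> apply cext
  · simp only [Matrix.of_apply, Matrix.cons_val', Matrix.cons_val_zero, Fin.zero_eta, Fin.isValue,
      Matrix.cons_val_fin_one, Matrix.cons_val_one, Fin.mk_one, add_val, mul_val, sub_val, one_val,
      zero_val, ck_val, cy, cx, zero_mul, mul_zero, add_zero, add_mul, mul_add, hb.1, hb.2, e1]
  · simp only [Matrix.of_apply, Matrix.cons_val', Matrix.cons_val_zero, Fin.zero_eta, Fin.isValue,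
      Matrix.cons_val_fin_one, Matrix.cons_val_one, Fin.mk_one, add_val, mul_val, sub_val, one_val,
      zero_val, ck_val, cy, cx, zero_mul, mul_zero, add_zero, zero_add, add_mul, mul_add, mul_sub, sub_mul,
      hF.eq, hba1, hba2, e2, e3, mul_one]
    abel
  · simp only [Matrix.of_apply, Matrix.cons_val', Matrix.cons_val_zero, Fin.zero_eta, Fin.isValue,
      Matrix.cons_val_fin_one, Matrix.cons_val_one, Fin.mk_one, add_val, mul_val, sub_val, one_val,
      zero_val, ck_val, cy, cx, zero_mul, mul_zero, add_zero, zero_add, add_mul, mul_add, mul_sub, sub_mul,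
      hF.eq, hab1, hab2, h1, e4, one_mul]
    abel
  · simp

/-- the version with a representation of `G` in the units of `S` -/
theorem main_units (hC : ClosedE C) {S : Type} [Ring S] {I : Ideal S} [I.IsTwoSided] (hI : LocalGL2 C I)
    {G : Type} [Group G] (N : Subgroup G) [N.Normal] (ρ : G →* Sˣ) (hinj : ∀ n ∈ N, ρ n = 1 → n = 1)
    (hN : ∀ n ∈ N, (ρ n : S) - 1 ∈ I) (hQ : C (G ⧸ N)) : C G := by
  refine main_partial hC hI N (ρ.comp N.subtype) ?_ ?_ hQ
  · rw [injective_iff_map_eq_one]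
    intro n hn
    exact Subtype.ext (hinj n n.2 hn)
  · intro g E hE
    obtain ⟨f, hfI, hf, hfT, -⟩ := hI ((fun n : N => (ρ n : S) - 1) '' E) (hE.image _) (by
      rintro _ ⟨n, -, rfl⟩
      exact hN n n.2)
    refine ⟨f * ((ρ g)⁻¹ : Sˣ), I.mul_mem_right _ hfI, (ρ g : S) * f, I.mul_mem_left _ hfI, ?_, ?_, ?_⟩
    · rw [mul_assoc f, ← mul_assoc _ (ρ g : S), Units.inv_mul, one_mul, hf.eq, ← mul_assoc, hf.eq]
    · rw [mul_assoc (ρ g : S) f, ← mul_assoc f f, hf.eq, mul_assoc (ρ g : S), mul_assoc f,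
        ← mul_assoc _ (ρ g : S) f, Units.inv_mul, one_mul, hf.eq]
    · intro n hn
      have h1 := hfT _ ⟨n, hn, rfl⟩
      simp only at h1
      have e1 : f * (((ρ g)⁻¹ : Sˣ) : S) * ((ρ g : S) * f) = f := by
        rw [mul_assoc f, ← mul_assoc _ (ρ g : S), Units.inv_mul, one_mul, hf.eq]
      refine ⟨?_, ?_, ?_⟩
      · rw [e1]; exact h1.1
      · rw [e1]; exact h1.2
      · have e2 : ((ρ.comp N.subtype) (MulAut.conjNormal g n) : S) =
            (ρ g : S) * (ρ n : S) * (((ρ g)⁻¹ : Sˣ) : S) := by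
          show ((ρ ((MulAut.conjNormal g n : N) : G) : Sˣ) : S) = _
          rw [MulAut.conjNormal_apply, map_mul, map_mul, map_inv]
          push_cast
          rfl
        rw [e2]
        show (ρ g : S) * f * ((ρ n : S) - 1) * (f * (((ρ g)⁻¹ : Sˣ) : S)) = _
        rw [mul_assoc (ρ g : S) f, h1.1, ← mul_assoc, mul_assoc (ρ g : S) _ f, h1.2, mul_sub, sub_mul,
          mul_one, Units.mul_inv]

end Pool.Agent.R942.FJ
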