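import Pool.Agent.R779.FJ.Mh
import Pool.Agent.R941.FJ.Edge
import Pool.Agent.R665.FJ.Hn

/-!
# Multiple HNN extensions with a homomorphism which is injective on the associated subgroups
-/

set_option autoImplicit false

namespace Pool.Agent.R942.FJ

open Pool.Agent.Y110.FJ Pool.Agent.R779.FJ
open Pool.Agent.Y462.SS (Closed)

/-- finitely many stable letters -/
theorem mh_fin {C : ∀ (G : Type) [Group G], Prop} (hC : ClosedE C) {M : Type} [Group M] {I : Type}
    {B : I → Type} [∀ i, Group (B i)] (α β : ∀ i, B i →* M) (hM : C M)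
    (hα : ∀ i, Function.Injective (α i)) (hβ : ∀ i, Function.Injective (β i))
    (P : Type) [Group P] (hP : C P) (f : M →* P) (p : I → P)
    (hp : ∀ i b, p i * f (α i b) * (p i)⁻¹ = f (β i b))
    (hf : ∀ i b, f (α i b) = 1 → b = 1) (J : Finset I) :
    C (MH (rst α J) (rst β J)) ∧ Function.Injective (MH.of (rst α J) (rst β J)) := by
  classical
  induction J using Finset.induction_on with
  | empty =>
    let r : MH (rst α (∅ : Finset I)) (rst β (∅ : Finset I)) →* M :=
      MH.lift (MonoidHom.id M) (fun i => absurd i.2 (Finset.notMem_empty _))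
        (fun i => absurd i.2 (Finset.notMem_empty _))
    have h1 : (MH.of (rst α (∅ : Finset I)) (rst β (∅ : Finset I))).comp r = MonoidHom.id _ :=
      MH.hom_ext (by
        intro m
        show MH.of _ _ (r (MH.of _ _ m)) = _
        rw [show r (MH.of _ _ m) = m from MH.lift_of _ _ _ m]
        rfl) (fun i => absurd i.2 (Finset.notMem_empty _))
    have h2 : ∀ m, r (MH.of (rst α (∅ : Finset I)) (rst β (∅ : Finset I)) m) = m :=
      fun m => MH.lift_of _ _ _ m
    have h3 : Function.LeftInverse (MH.of (rst α (∅ : Finset I)) (rst β (∅ : Finset I))) r :=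
      fun x => DFunLike.congr_fun h1 x
    exact ⟨hC.base.of_injective _ _ r h3.injective hM, Function.LeftInverse.injective h2⟩
  | insert j J hj ih =>
    obtain ⟨hK, hoK0⟩ := ih
    let K : Type := MH (rst α J) (rst β J)
    let F : K →* P := MH.lift f (fun i => p i) (fun i b => hp i b)
    have hFo : ∀ m, F (MH.of (rst α J) (rst β J) m) = f m := fun m => MH.lift_of _ _ _ m
    let oK : M →* K := MH.of (rst α J) (rst β J)
    have hoK : Function.Injective oK := hoK0
    let a : B j →* K := oK.comp (α j)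
    let b : B j →* K := oK.comp (β j)
    have ha : Function.Injective a := hoK.comp (hα j)
    have hb : Function.Injective b := hoK.comp (hβ j)
    let φ : a.range ≃* b.range := (MonoidHom.ofInjective ha).symm.trans (MonoidHom.ofInjective hb)
    have hφ : ∀ x : B j, φ ⟨a x, ⟨x, rfl⟩⟩ = ⟨b x, ⟨x, rfl⟩⟩ := by
      intro x
      have h1 : (MonoidHom.ofInjective ha).symm ⟨a x, ⟨x, rfl⟩⟩ = x := by
        rw [MulEquiv.symm_apply_eq]
        rfl
      show (MonoidHom.ofInjective hb) ((MonoidHom.ofInjective ha).symm ⟨a x, ⟨x, rfl⟩⟩) = _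
      rw [h1]
      rfl
    let G : Type := HNNExtension K a.range b.range φ
    let fG : G →* P := HNNExtension.lift F (p j) (by
      rintro ⟨_, x, rfl⟩
      have h1 : ((φ ⟨a x, ⟨x, rfl⟩⟩ : b.range) : K) = b x := by rw [hφ]
      show p j * F (a x) = F ((φ ⟨a x, ⟨x, rfl⟩⟩ : b.range) : K) * p j
      rw [h1, ← mul_inv_eq_iff_eq_mul]
      show p j * F (MH.of (rst α J) (rst β J) (α j x)) * (p j)⁻¹ =
        F (MH.of (rst α J) (rst β J) (β j x))
      rw [hFo, hFo]
      exact hp j x)
    have hfG : ∀ x : K, fG (HNNExtension.of x) = F x := fun x => HNNExtension.lift_of _ _ _ x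
    have hCG : C G := by
      refine Pool.Agent.R665.FJ.hn hC hK hP fG ?_
      rintro _ ⟨x, rfl⟩ h1
      rw [hfG] at h1
      have h2 : F (MH.of (rst α J) (rst β J) (α j x)) = 1 := h1
      rw [hFo] at h2
      rw [hf j x h2, map_one]
    have hGrel : ∀ x : B j, (HNNExtension.t : G) * HNNExtension.of (a x) * HNNExtension.t⁻¹ =
        HNNExtension.of (b x) := by
      intro x
      have h1 := HNNExtension.t_mul_of (φ := φ) ⟨a x, ⟨x, rfl⟩⟩
      rw [hφ] at h1
      rw [mul_inv_eq_iff_eq_mul]
      exact h1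
    let J' : Finset I := insert j J
    let s : J' → G := fun i => if h : (i : I) ∈ J then HNNExtension.of (MH.t (rst α J) (rst β J) ⟨i, h⟩)
      else HNNExtension.t
    let Θ : MH (rst α J') (rst β J') →* G := MH.lift (HNNExtension.of.comp oK) s (by
      rintro ⟨i, hi⟩ x
      by_cases h : i ∈ J
      · have h1 : s ⟨i, hi⟩ = HNNExtension.of (MH.t (rst α J) (rst β J) ⟨i, h⟩) := dif_pos h
        rw [h1]
        have h2 := MH.rel (rst α J) (rst β J) ⟨i, h⟩ x
        have h3 := congrArg (HNNExtension.of : K →* G) h2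
        rw [map_mul, map_mul, map_inv] at h3
        exact h3
      · have h1 : s ⟨i, hi⟩ = HNNExtension.t := dif_neg h
        rw [h1]
        have h2 : i = j := by
          rcases Finset.mem_insert.1 hi with h3 | h3
          · exact h3
          · exact absurd h3 h
        subst h2
        exact hGrel x)
    have hΘof : ∀ m, Θ (MH.of _ _ m) = HNNExtension.of (oK m) := fun m => MH.lift_of _ _ _ m
    have hΘt : ∀ i, Θ (MH.t _ _ i) = s i := fun i => MH.lift_t _ _ _ i
    let inc : K →* MH (rst α J') (rst β J') :=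
      MH.lift (MH.of _ _) (fun i => MH.t (rst α J') (rst β J') ⟨i, Finset.mem_insert_of_mem i.2⟩)
        (fun i x => MH.rel (rst α J') (rst β J') ⟨i, Finset.mem_insert_of_mem i.2⟩ x)
    have hinc : ∀ m, inc (oK m) = MH.of _ _ m := fun m => MH.lift_of _ _ _ m
    have hinct : ∀ i, inc (MH.t _ _ i) = MH.t (rst α J') (rst β J')
        ⟨i, Finset.mem_insert_of_mem i.2⟩ := fun i => MH.lift_t _ _ _ i
    let jj : J' := ⟨j, Finset.mem_insert_self j J⟩
    let Ξ : G →* MH (rst α J') (rst β J') := HNNExtension.lift inc (MH.t _ _ jj) (by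
      rintro ⟨_, x, rfl⟩
      have h1 : ((φ ⟨a x, ⟨x, rfl⟩⟩ : b.range) : K) = b x := by rw [hφ]
      show MH.t _ _ jj * inc (a x) = inc ((φ ⟨a x, ⟨x, rfl⟩⟩ : b.range) : K) * MH.t _ _ jj
      rw [h1, ← mul_inv_eq_iff_eq_mul]
      show MH.t _ _ jj * inc (oK (α j x)) * (MH.t _ _ jj)⁻¹ = inc (oK (β j x))
      rw [hinc, hinc]
      exact MH.rel (rst α J') (rst β J') jj x)
    have hΞof : ∀ x : K, Ξ (HNNExtension.of x) = inc x := fun x => HNNExtension.lift_of _ _ _ x
    have hΞt : Ξ HNNExtension.t = MH.t _ _ jj := HNNExtension.lift_t _ _ _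
    have hΞΘ : ∀ x, Ξ (Θ x) = x := by
      intro x
      have : Ξ.comp Θ = MonoidHom.id _ := MH.hom_ext (by
        intro m
        show Ξ (Θ (MH.of _ _ m)) = MH.of _ _ m
        rw [hΘof, hΞof, hinc]) (by
        rintro ⟨i, hi⟩
        show Ξ (Θ (MH.t _ _ ⟨i, hi⟩)) = MH.t _ _ ⟨i, hi⟩
        rw [hΘt]
        by_cases h : i ∈ J
        · have h1 : s ⟨i, hi⟩ = HNNExtension.of (MH.t (rst α J) (rst β J) ⟨i, h⟩) := dif_pos h
          rw [h1, hΞof, hinct]
        · have h1 : s ⟨i, hi⟩ = HNNExtension.t := dif_neg h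
          rw [h1, hΞt]
          have h2 : i = j := by
            rcases Finset.mem_insert.1 hi with h3 | h3
            · exact h3
            · exact absurd h3 h
          subst h2
          rfl)
      exact DFunLike.congr_fun this x
    have hΘi : Function.Injective Θ := Function.LeftInverse.injective hΞΘ
    refine ⟨hC.base.of_injective _ _ Θ hΘi hCG, ?_⟩
    intro x y hxy
    have h1 : Θ (MH.of _ _ x) = Θ (MH.of _ _ y) := congrArg Θ hxy
    rw [hΘof, hΘof] at h1
    exact hoK (HNNExtension.of_injective φ h1)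

section local'

variable {M : Type} [Group M] {I : Type} {B : I → Type} [∀ i, Group (B i)] (α β : ∀ i, B i →* M)

/-- the subgroup of `B i` generated by the elements of the finite set `S` -/
def clS (S : Set (Σ i, B i)) (i : I) : Subgroup (B i) := Subgroup.closure {b | (⟨i, b⟩ : Σ i, B i) ∈ S}

/-- the restriction of the family to these subgroups -/
abbrev rS (S : Set (Σ i, B i)) (i : I) : clS S i →* M := (α i).comp (clS S i).subtype

/-- for every finite set `S` of pairs `(i, b)`, `b ∈ B i`, there are a group `P` in `C`, a homomorphism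
`f : M → P` and elements `p i` of `P` which conjugate `f (α i b)` to `f (β i b)` for `(i, b)` in `S`, such that
`f` is injective on the subgroup generated by the `α i b`, `(i, b)` in `S`, for each `i` -/
def LocMh (C : ∀ (G : Type) [Group G], Prop) : Prop :=
  ∀ S : Set (Σ i, B i), S.Finite → ∃ (P : Type) (_ : Group P) (f : M →* P) (p : I → P), C P ∧
    (∀ (i : I) (b : B i), (⟨i, b⟩ : Σ i, B i) ∈ S → p i * f (α i b) * (p i)⁻¹ = f (β i b)) ∧
    ∀ (i : I), ∀ b ∈ clS S i, f (α i b) = 1 → b = 1

/-- the group with the relations for a finite set of pairs -/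
theorem mh_S {C : ∀ (G : Type) [Group G], Prop} (hC : ClosedE C) (hM : C M)
    (hα : ∀ i, Function.Injective (α i)) (hβ : ∀ i, Function.Injective (β i))
    (S : Set (Σ i, B i)) (hS : S.Finite) {P : Type} [Group P] (hP : C P) (f : M →* P) (p : I → P)
    (hp : ∀ (i : I) (b : B i), (⟨i, b⟩ : Σ i, B i) ∈ S → p i * f (α i b) * (p i)⁻¹ = f (β i b))
    (hf : ∀ (i : I), ∀ b ∈ clS S i, f (α i b) = 1 → b = 1) :
    C (MH (rS α S) (rS β S)) := by
  classical
  obtain ⟨J, hJ⟩ : ∃ J : Finset I, ∀ i b, (⟨i, b⟩ : Σ i, B i) ∈ S → i ∈ J :=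
    ⟨(hS.image Sigma.fst).toFinset, fun i b h => (hS.image Sigma.fst).mem_toFinset.2 ⟨_, h, rfl⟩⟩
  have htriv : ∀ i, i ∉ J → ∀ b : clS S i, b = 1 := by
    intro i hi b
    have h1 : {b | (⟨i, b⟩ : Σ i, B i) ∈ S} = ∅ := by
      ext b
      simp only [Set.mem_ofPred_eq, Set.mem_empty_iff_false, iff_false]
      exact fun h => hi (hJ i b h)
    have h2 : clS S i = ⊥ := by rw [clS, h1, Subgroup.closure_empty]
    have h3 : (b : B i) ∈ (⊥ : Subgroup (B i)) := by
      rw [← h2]
      exact b.2
    exact Subtype.ext (Subgroup.mem_bot.1 h3)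
  have hp' : ∀ i (b : clS S i), p i * f (rS α S i b) * (p i)⁻¹ = f (rS β S i b) := by
    intro i b
    have h1 : clS S i ≤ MonoidHom.eqLocus ((MulAut.conj (p i)).toMonoidHom.comp (f.comp (α i)))
        (f.comp (β i)) := by
      rw [clS, Subgroup.closure_le]
      intro b hb
      exact hp i b hb
    exact h1 b.2
  have hfin := mh_fin hC (rS α S) (rS β S) hM (fun i => (hα i).comp Subtype.val_injective)
    (fun i => (hβ i).comp Subtype.val_injective) P hP f p hp'
    (fun i b h => Subtype.ext (hf i b b.2 h)) J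
  let K : Type := MH (rst (rS α S) J) (rst (rS β S) J)
  have hK : C (Monoid.Coprod K (FreeGroup I)) :=
    hC.base.coprod _ _ hfin.1 (Pool.Agent.Y179.SS.t_free C hC.base I)
  let s : I → Monoid.Coprod K (FreeGroup I) := fun i => if h : i ∈ J then
    Monoid.Coprod.inl (MH.t (rst (rS α S) J) (rst (rS β S) J) ⟨i, h⟩) else
    Monoid.Coprod.inr (FreeGroup.of i)
  let Θ : MH (rS α S) (rS β S) →* Monoid.Coprod K (FreeGroup I) :=
    MH.lift (Monoid.Coprod.inl.comp (MH.of _ _)) s (by
      intro i b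
      by_cases h : i ∈ J
      · rw [show s i = Monoid.Coprod.inl (MH.t (rst (rS α S) J) (rst (rS β S) J) ⟨i, h⟩) from dif_pos h]
        have h2 := MH.rel (rst (rS α S) J) (rst (rS β S) J) ⟨i, h⟩ b
        have h3 := congrArg (Monoid.Coprod.inl : K →* Monoid.Coprod K (FreeGroup I)) h2
        rw [map_mul, map_mul, map_inv] at h3
        exact h3
      · rw [htriv i h b, map_one (rS α S i), map_one (rS β S i), map_one, mul_one, mul_inv_cancel])
  let Ξ : Monoid.Coprod K (FreeGroup I) →* MH (rS α S) (rS β S) :=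
    Monoid.Coprod.lift (MH.lift (MH.of _ _) (fun i => MH.t _ _ (i : I))
      (fun i b => MH.rel (rS α S) (rS β S) (i : I) b)) (FreeGroup.lift fun i => MH.t _ _ i)
  have hΞΘ : ∀ x, Ξ (Θ x) = x := by
    intro x
    have : Ξ.comp Θ = MonoidHom.id _ := MH.hom_ext (by
      intro m
      show Ξ (Θ (MH.of _ _ m)) = MH.of _ _ m
      rw [show Θ (MH.of _ _ m) = Monoid.Coprod.inl (MH.of _ _ m) from MH.lift_of _ _ _ m]
      show Monoid.Coprod.lift _ _ (Monoid.Coprod.inl _) = _
      rw [Monoid.Coprod.lift_apply_inl]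
      exact MH.lift_of _ _ _ m) (by
      intro i
      show Ξ (Θ (MH.t _ _ i)) = MH.t _ _ i
      rw [show Θ (MH.t _ _ i) = s i from MH.lift_t _ _ _ i]
      by_cases h : i ∈ J
      · rw [show s i = Monoid.Coprod.inl (MH.t (rst (rS α S) J) (rst (rS β S) J) ⟨i, h⟩) from dif_pos h]
        show Monoid.Coprod.lift _ _ (Monoid.Coprod.inl _) = _
        rw [Monoid.Coprod.lift_apply_inl]
        exact MH.lift_t _ _ _ _
      · rw [show s i = Monoid.Coprod.inr (FreeGroup.of i) from dif_neg h]
        show Monoid.Coprod.lift _ _ (Monoid.Coprod.inr _) = _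
        rw [Monoid.Coprod.lift_apply_inr, FreeGroup.lift_apply_of])
    exact DFunLike.congr_fun this x
  exact hC.base.of_injective _ _ Θ (Function.LeftInverse.injective hΞΘ) hK

/-- **multiple HNN extensions** whose associated subgroups are locally detected -/
theorem mh_loc {C : ∀ (G : Type) [Group G], Prop} (hC : ClosedE C) (hM : C M)
    (hα : ∀ i, Function.Injective (α i)) (hβ : ∀ i, Function.Injective (β i))
    (hloc : LocMh α β C) : C (MH α β) := by
  classical
  have h1 : C (Monoid.Coprod M (FreeGroup I) ⧸ Subgroup.normalClosure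
      (⋃ S : Finset (Σ i, B i), mhRel (rS α (S : Set (Σ i, B i))) (rS β (S : Set (Σ i, B i))))) := by
    refine Pool.Agent.R941.FJ.colim_quot hC.base
      (fun i j => ⟨i ∪ j, Finset.subset_union_left, Finset.subset_union_right⟩)
      _ (fun S S' hSS => ?_) fun S => ?_
    · rintro _ ⟨i, b, rfl⟩
      have h2 : clS (S : Set (Σ i, B i)) i ≤ clS (S' : Set (Σ i, B i)) i :=
        Subgroup.closure_mono fun b hb => by exact_mod_cast hSS hb
      exact ⟨i, ⟨b, h2 b.2⟩, rfl⟩
    · obtain ⟨P, _, f, p, hP, hp, hf⟩ := hloc S S.finite_toSet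
      exact mh_S α β hC hM hα hβ S S.finite_toSet hP f p hp hf
  have h2 : mhRel α β = ⋃ S : Finset (Σ i, B i),
      mhRel (rS α (S : Set (Σ i, B i))) (rS β (S : Set (Σ i, B i))) := by
    apply Set.Subset.antisymm
    · rintro _ ⟨i, b, rfl⟩
      refine Set.mem_iUnion.2 ⟨{⟨i, b⟩}, i, ⟨b, Subgroup.subset_closure ?_⟩, rfl⟩
      simp
    · refine Set.iUnion_subset fun S => ?_
      rintro _ ⟨i, b, rfl⟩
      exact ⟨i, b, rfl⟩
  have h3 : C (Monoid.Coprod M (FreeGroup I) ⧸ Subgroup.normalClosure (mhRel α β)) := by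
    rw [h2]
    exact h1
  exact h3

end local'

end Pool.Agent.R942.FJ
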