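import Pool.Agent.R942.FJ.Len
import Pool.Agent.R779.FJ.Col

/-!
# Conjugations which are residually realized in torsion-free groups of the class
-/

set_option autoImplicit false

namespace Pool.Agent.R942.FJ

open Pool.Agent.Y110.FJ
open Pool.Agent.Y462.SS (Closed)

variable {C : ∀ (G : Type) [Group G], Prop}

section

variable {G : Type} [Group G] (g : G) (E : Set G)

/-- the subgroup generated by `E` and its conjugate -/
def EgE : Subgroup G := Subgroup.closure (E ∪ (fun x => g * x * g⁻¹) '' E)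

/-- `p` conjugates `f x` to `f (g x g⁻¹)` for `x` in `E` -/
def Realizes {P : Type} [Group P] (f : EgE g E →* P) (p : P) : Prop :=
  ∀ x y : EgE g E, (x : G) ∈ E → (y : G) = g * x * g⁻¹ → f y = p * f x * p⁻¹

/-- for every finite subset `E` of `N` and every `z ≠ 1` in the subgroup generated by `E` and `g E g⁻¹` there
are a torsion-free group `P` in `C`, a homomorphism `f` of this subgroup to `P` with `f z ≠ 1` and an
element `p` of `P` which conjugates `f x` to `f (g x g⁻¹)` for `x` in `E` -/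
def ResRealized (C : ∀ (G : Type) [Group G], Prop) (N : Subgroup G) : Prop :=
  ∀ E : Set G, E.Finite → E ⊆ N → ∀ z : EgE g E, z ≠ 1 →
    ∃ (P : Type) (_ : Group P) (f : EgE g E →* P) (p : P), C P ∧
      (∀ x : P, ∀ k : ℕ, 0 < k → x ^ k = 1 → x = 1) ∧ Realizes g E f p ∧ f z ≠ 1

end

theorem realized_of_res (hC : Closed C) {G : Type} [Group G] (N : Subgroup G) [N.Normal]
    (hlen : ∀ E : Set G, E.Finite → E ⊆ N → ∃ n, LenLe n (Subgroup.closure E)) (g : G)
    (h : ResRealized g C N) (E : Set G) (hE : E.Finite) (hEN : E ⊆ N) : Realized C g E := by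
  have hE2 : E ∪ (fun x => g * x * g⁻¹) '' E ⊆ N := by
    rintro x (hx | ⟨y, hy, rfl⟩)
    · exact hEN hx
    · exact ‹N.Normal›.conj_mem y (hEN hy) g
  obtain ⟨n, hn⟩ := hlen _ (hE.union (hE.image _)) hE2
  suffices hkey : ∃ K ∈ {K : Subgroup G | ∃ (P : Type) (_ : Group P) (f : EgE g E →* P) (p : P),
      C P ∧ Realizes g E f p ∧ ∀ x : EgE g E, ((x : G) ∈ K ↔ f x = 1)},
      ∀ x ∈ EgE g E, x ∈ K → x = 1 by
    obtain ⟨K, ⟨P, _, f, p, hP, hfp, hK⟩, hK'⟩ := hkey
    refine ⟨P, inferInstance, f, p, hP, ?_, hfp⟩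
    rw [injective_iff_map_eq_one]
    intro x hx
    exact Subtype.ext (hK' x x.2 ((hK x).2 hx))
  refine len_lemma _ ?_ ?_ n (EgE g E) hn ?_
  · exact ⟨Multiplicative ℤ, inferInstance, 1, 1, hC.int, fun _ _ _ _ => rfl, fun x => by simp⟩
  · rintro K ⟨P, _, f, p, hP, hfp, hK⟩ K' ⟨P', _, f', p', hP', hfp', hK'⟩
    refine ⟨P × P', inferInstance, f.prod f', (p, p'), hC.prod P P' hP hP', ?_, ?_⟩
    · intro x y hx hy
      exact Prod.ext (hfp x y hx hy) (hfp' x y hx hy)
    · intro x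
      rw [Subgroup.mem_inf, hK x, hK' x]
      exact ⟨fun h => Prod.ext h.1 h.2, fun h => ⟨congrArg Prod.fst h, congrArg Prod.snd h⟩⟩
  · intro z hz hz1
    obtain ⟨P, _, f, p, hP, hPt, hfp, hfz⟩ := h E hE hEN ⟨z, hz⟩ fun h => hz1 (congrArg Subtype.val h)
    refine ⟨f.ker.map (EgE g E).subtype, ⟨P, inferInstance, f, p, hP, hfp, fun y => ?_⟩, ?_, ?_⟩
    · constructor
      · rintro ⟨w, hw, hwy⟩
        rw [← (EgE g E).subtype_injective hwy]
        exact hw
      · intro h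
        exact ⟨y, h, rfl⟩
    · rintro ⟨w, hw, hwz⟩
      refine hfz ?_
      rw [show (⟨z, hz⟩ : EgE g E) = w from Subtype.ext hwz.symm]
      exact hw
    · rintro y hy k hk ⟨w, hw, hwy⟩
      refine ⟨⟨y, hy⟩, ?_, rfl⟩
      have h1 : w = ⟨y, hy⟩ ^ k := Subtype.ext hwy
      have h2 : f w = 1 := hw
      rw [h1, map_pow] at h2
      exact hPt _ k hk h2

/-- **the residual criterion** -/
theorem main_res (hC : ClosedE C) {G : Type} [Group G] (N : Subgroup G) [N.Normal]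
    (hlen : ∀ E : Set G, E.Finite → E ⊆ N → ∃ n, LenLe n (Subgroup.closure E))
    (h : ∀ g : G, ResRealized g C N) (hQ : C (G ⧸ N)) : C G :=
  Pool.Agent.R779.FJ.t_crit Pool.Agent.Y529.FJ.t_ext
    (Pool.Agent.Y961.FJ.t_perm Pool.Agent.Y529.FJ.t_ext) C hC G N hQ
    fun g E hE hEN => realized_of_res hC.base N hlen g (h g) E hE hEN

/-- homomorphisms of `N⟨g⟩` which detect the elements of `N` -/
theorem res_of_hom {G : Type} [Group G] (N : Subgroup G) [N.Normal] (g : G)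
    (h : ∀ z ∈ N, z ≠ 1 → ∃ (P : Type) (_ : Group P) (f : ↥(N ⊔ Subgroup.zpowers g) →* P), C P ∧
      (∀ x : P, ∀ k : ℕ, 0 < k → x ^ k = 1 → x = 1) ∧
      ∀ z' : ↥(N ⊔ Subgroup.zpowers g), (z' : G) = z → f z' ≠ 1) : ResRealized g C N := by
  intro E _ hEN z hz1
  have hE2 : E ∪ (fun x => g * x * g⁻¹) '' E ⊆ N := by
    rintro x (hx | ⟨y, hy, rfl⟩)
    · exact hEN hx
    · exact ‹N.Normal›.conj_mem y (hEN hy) g
  have hle : EgE g E ≤ N := (Subgroup.closure_le N).2 hE2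
  obtain ⟨P, _, f, hP, hPt, hf⟩ := h z (hle z.2) fun h => hz1 (Subtype.ext h)
  refine ⟨P, inferInstance, f.comp (Subgroup.inclusion (hle.trans le_sup_left)),
    f ⟨g, Subgroup.mem_sup_right (Subgroup.mem_zpowers g)⟩, hP, hPt, ?_, hf _ rfl⟩
  intro x y _ hy
  rw [← map_inv, MonoidHom.comp_apply, MonoidHom.comp_apply, ← map_mul, ← map_mul]
  congr 1
  exact Subtype.ext hy

end Pool.Agent.R942.FJ
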