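import Pool.Agent.R942.FJ.LocMain
import Pool.Agent.R941.FJ.Hyper

/-!
# Ascending series of ideals
-/

set_option autoImplicit false
set_option linter.unusedSimpArgs false

namespace Pool.Agent.R942.FJ

open Pool.Agent.Y110.FJ Pool.Agent.R941.FJ
open Pool.Agent.Y462.SS (Closed)

variable {C : ∀ (G : Type) [Group G], Prop}

/-- `I` has local units `F` such that the groups `GL_m(F S F)` over the corners are in `C` -/
def LocalGL (C : ∀ (G : Type) [Group G], Prop) {S : Type} [Ring S] (I : Ideal S) : Prop :=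
  ∀ T : Set S, T.Finite → T ⊆ I → ∃ F ∈ I, ∃ hF : IsIdempotentElem F, (∀ x ∈ T, F * x = x ∧ x * F = x) ∧
    ∀ m : ℕ, C (Matrix (Fin m) (Fin m) hF.Corner)ˣ

section mat

variable {S : Type} [Ring S]

instance matrix_twoSided (I : Ideal S) [I.IsTwoSided] (n : ℕ) : (I.matrix (Fin n)).IsTwoSided where
  mul_mem_of_left := by
    intro a b ha i j
    rw [Matrix.mul_apply]
    exact Ideal.sum_mem _ fun k _ => I.mul_mem_right _ (ha i k)

variable {F : S} (hF : IsIdempotentElem F)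

/-- the inclusion of the corner -/
def cv : hF.Corner →+ S where
  toFun := Subtype.val
  map_zero' := rfl
  map_add' := fun _ _ => rfl

theorem cv_apply (x : hF.Corner) : cv hF x = x.1 := rfl

/-- the diagonal idempotent matrix -/
def dF (F : S) (n : ℕ) : Matrix (Fin n) (Fin n) S := Matrix.diagonal fun _ => F

include hF in
theorem dF_idem (n : ℕ) : IsIdempotentElem (dF F n) := by
  show Matrix.diagonal _ * Matrix.diagonal _ = _
  rw [Matrix.diagonal_mul_diagonal, hF.eq]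
  rfl

theorem dF_mul (n : ℕ) (A : Matrix (Fin n) (Fin n) S) (i j : Fin n) : (dF F n * A) i j = F * A i j := by
  rw [dF, Matrix.diagonal_mul]

theorem mul_dF (n : ℕ) (A : Matrix (Fin n) (Fin n) S) (i j : Fin n) : (A * dF F n) i j = A i j * F := by
  rw [dF, Matrix.mul_diagonal]

/-- the corner of the matrix ring is the matrix ring over the corner -/
def cm (n : ℕ) : (dF_idem hF n).Corner →+* Matrix (Fin n) (Fin n) hF.Corner where
  toFun A := Matrix.of fun i j => ck hF (A.1 i j) (by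
    have h := (Subsemigroup.mem_corner_iff (dF_idem hF n)).1 A.2
    exact ⟨by rw [← dF_mul, h.1], by rw [← mul_dF, h.2]⟩)
  map_one' := by
    ext i j
    apply cext
    rw [Matrix.of_apply, ck_val]
    show dF F n i j = _
    rw [dF, Matrix.diagonal_apply, Matrix.one_apply]
    split_ifs <;> rfl
  map_mul' A B := by
    ext i j
    apply cext
    rw [Matrix.of_apply, ck_val, Matrix.mul_apply, ← cv_apply hF, map_sum]
    show (A.1 * B.1) i j = _
    rw [Matrix.mul_apply]
    rfl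
  map_zero' := by
    ext i j
    apply cext
    rfl
  map_add' A B := by
    ext i j
    apply cext
    rfl

theorem cm_inj (n : ℕ) : Function.Injective (cm hF n) := by
  intro A B h
  apply cext
  ext i j
  exact congrArg Subtype.val (congrFun (congrFun h i) j)

theorem LocalGL.matrix (hC : Closed C) {I : Ideal S} (h : LocalGL C I) (n : ℕ) :
    LocalGL2 C (I.matrix (Fin n)) := by
  intro T hT hTI
  obtain ⟨F, hFI, hF, hFT, hCF⟩ := h (⋃ A ∈ T, Set.range fun p : Fin n × Fin n => A p.1 p.2)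
    (hT.biUnion fun A _ => Set.finite_range _) (by
      intro x hx
      simp only [Set.mem_iUnion, Set.mem_range] at hx
      obtain ⟨A, hA, p, rfl⟩ := hx
      exact hTI hA p.1 p.2)
  have hmem : ∀ A ∈ T, ∀ i j, F * A i j = A i j ∧ A i j * F = A i j := by
    intro A hA i j
    apply hFT
    simp only [Set.mem_iUnion, Set.mem_range]
    exact ⟨A, hA, (i, j), rfl⟩
  refine ⟨dF F n, ?_, dF_idem hF n, ?_, ?_⟩
  · intro i j
    rw [dF, Matrix.diagonal_apply]
    split_ifs
    · exact hFI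
    · exact I.zero_mem
  · intro A hA
    constructor
    · ext i j
      rw [dF_mul]; exact (hmem A hA i j).1
    · ext i j
      rw [mul_dF]; exact (hmem A hA i j).2
  · let e : Fin 2 × Fin n ≃ Fin (2 * n) := finProdFinEquiv
    let f1 : Matrix (Fin 2) (Fin 2) (dF_idem hF n).Corner →+* Matrix (Fin 2) (Fin 2)
        (Matrix (Fin n) (Fin n) hF.Corner) := (cm hF n).mapMatrix
    let f2 := Matrix.compRingEquiv (Fin 2) (Fin n) hF.Corner
    let f3 := Matrix.reindexRingEquiv hF.Corner e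
    let f : Matrix (Fin 2) (Fin 2) (dF_idem hF n).Corner →* Matrix (Fin (2 * n)) (Fin (2 * n)) hF.Corner :=
      (f3.toRingHom.comp (f2.toRingHom.comp f1)).toMonoidHom
    refine hC.of_injective _ _ (Units.map f) (Units.map_injective ?_) (hCF (2 * n))
    intro A B h0
    have h1 : f3 (f2 (f1 A)) = f3 (f2 (f1 B)) := h0
    have h := f2.injective (f3.injective h1)
    ext i j
    exact cm_inj hF n (congrFun (congrFun h i) j)

end mat

/-! ### the step with local units -/

/-- a cyclic quotient -/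
theorem cyc_quot (hC : Closed C) {G : Type} [Group G] (L : Subgroup G) [L.Normal] (x : G) :
    C (↥(L ⊔ Subgroup.zpowers x) ⧸ L.subgroupOf (L ⊔ Subgroup.zpowers x)) := by
  refine quot hC _ ?_
  have h1 : (L ⊔ Subgroup.zpowers x).map (QuotientGroup.mk' L) =
      Subgroup.zpowers (QuotientGroup.mk' L x) := by
    rw [Subgroup.map_sup, MonoidHom.map_zpowers, QuotientGroup.map_mk'_self, bot_sup_eq]
  rw [h1]
  exact C_cyc hC _

theorem step_loc (hC : ClosedE C) {G : Type} [Group G] {R : Type} [Ring R] {J : Ideal R} [J.IsTwoSided]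
    (hJ : LocalGL2 C J) (ρ : G →* Rˣ) (M M' : Subgroup G) [M.Normal] [M'.Normal]
    (h1 : ∀ g ∈ M, ρ g = 1) (h2 : ∀ g ∈ M', ρ g = 1 → g ∈ M) (h3 : ∀ g ∈ M', (ρ g : R) - 1 ∈ J) (g : G) :
    C ↥((M' ⊔ Subgroup.zpowers g).map (QuotientGroup.mk' M)) := by
  have hL : (M'.map (QuotientGroup.mk' M)).Normal :=
    Subgroup.Normal.map inferInstance _ (QuotientGroup.mk'_surjective M)
  obtain ⟨L, hLdef⟩ : ∃ L : Subgroup (G ⧸ M), L = M'.map (QuotientGroup.mk' M) := ⟨_, rfl⟩
  rw [Subgroup.map_sup, MonoidHom.map_zpowers, ← hLdef]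
  rw [← hLdef] at hL
  let ρ' : G ⧸ M →* Rˣ := QuotientGroup.lift M ρ h1
  obtain ⟨H, hH⟩ : ∃ H : Subgroup (G ⧸ M), H = L ⊔ Subgroup.zpowers (QuotientGroup.mk' M g) := ⟨_, rfl⟩
  rw [← hH]
  refine main_units hC hJ (L.subgroupOf H) (ρ'.comp H.subtype) ?_ ?_ ?_
  · rintro ⟨x, hx⟩ hxL hx1
    rw [Subgroup.mem_subgroupOf, hLdef] at hxL
    obtain ⟨y, hy, hyx⟩ := hxL
    have h4 : ρ y = 1 := by
      have h5 : ρ' x = 1 := hx1
      rw [show x = QuotientGroup.mk' M y from hyx.symm] at h5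
      exact h5
    have h6 := h2 y hy h4
    apply Subtype.ext
    show x = 1
    rw [show x = QuotientGroup.mk' M y from hyx.symm]
    exact (QuotientGroup.eq_one_iff y).2 h6
  · rintro ⟨x, hx⟩ hxL
    rw [Subgroup.mem_subgroupOf, hLdef] at hxL
    obtain ⟨y, hy, hyx⟩ := hxL
    have h4 := h3 y hy
    have h5 : ρ' x = ρ y := by
      rw [show x = QuotientGroup.mk' M y from hyx.symm]
      rfl
    show ((ρ' x : Rˣ) : R) - 1 ∈ J
    rw [h5]
    exact h4
  · rw [hH]
    exact cyc_quot hC.base L _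

/-! ### congruence subgroups -/

section cong

variable {S : Type} [Ring S] {n : ℕ} {G : Type} [Group G] (N : Subgroup G)
  (ρ : G →* (Matrix (Fin n) (Fin n) S)ˣ)

theorem unit_mul_sub {R : Type} [Ring R] (u v : R) : u * v - 1 = (u - 1) * v + (v - 1) := by
  noncomm_ring

/-- the congruence subgroup of an ideal -/
def cong (I : Ideal S) [I.IsTwoSided] : Subgroup G where
  carrier := {g | g ∈ N ∧ ∀ i j, ((ρ g : Matrix (Fin n) (Fin n) S) - 1) i j ∈ I}
  one_mem' := ⟨N.one_mem, by intro i j; rw [map_one]; simp⟩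
  mul_mem' := by
    rintro a b ⟨ha, ha'⟩ ⟨hb, hb'⟩
    refine ⟨N.mul_mem ha hb, ?_⟩
    have h1 : (ρ a : Matrix (Fin n) (Fin n) S) - 1 ∈ I.matrix (Fin n) := ha'
    have h2 : (ρ b : Matrix (Fin n) (Fin n) S) - 1 ∈ I.matrix (Fin n) := hb'
    have h3 : (ρ (a * b) : Matrix (Fin n) (Fin n) S) - 1 ∈ I.matrix (Fin n) := by
      rw [map_mul, Units.val_mul, unit_mul_sub]
      exact Ideal.add_mem _ (Ideal.mul_mem_right _ _ h1) h2
    exact h3
  inv_mem' := by
    rintro a ⟨ha, ha'⟩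
    refine ⟨N.inv_mem ha, ?_⟩
    have h1 : (ρ a : Matrix (Fin n) (Fin n) S) - 1 ∈ I.matrix (Fin n) := ha'
    have h3 : (ρ a⁻¹ : Matrix (Fin n) (Fin n) S) - 1 ∈ I.matrix (Fin n) := by
      have e1 : ((ρ a⁻¹ : (Matrix (Fin n) (Fin n) S)ˣ) : Matrix (Fin n) (Fin n) S) - 1 =
          - (((ρ a : (Matrix (Fin n) (Fin n) S)ˣ) : Matrix (Fin n) (Fin n) S) - 1) *
            (((ρ a)⁻¹ : (Matrix (Fin n) (Fin n) S)ˣ) : Matrix (Fin n) (Fin n) S) := by
        rw [map_inv, neg_mul, sub_mul, Units.mul_inv, one_mul, neg_sub]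
      rw [e1]
      exact Ideal.mul_mem_right _ _ (neg_mem h1)
    exact h3

theorem mem_cong {I : Ideal S} [I.IsTwoSided] {g : G} :
    g ∈ cong N ρ I ↔ g ∈ N ∧ (ρ g : Matrix (Fin n) (Fin n) S) - 1 ∈ I.matrix (Fin n) := Iff.rfl

instance cong_normal [hN : N.Normal] (I : Ideal S) [I.IsTwoSided] : (cong N ρ I).Normal where
  conj_mem := by
    rintro a ⟨ha, ha'⟩ g
    refine ⟨hN.conj_mem a ha g, ?_⟩
    have h1 : (ρ a : Matrix (Fin n) (Fin n) S) - 1 ∈ I.matrix (Fin n) := ha'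
    have h3 : (ρ (g * a * g⁻¹) : Matrix (Fin n) (Fin n) S) - 1 ∈ I.matrix (Fin n) := by
      have e1 : ((ρ (g * a * g⁻¹) : (Matrix (Fin n) (Fin n) S)ˣ) : Matrix (Fin n) (Fin n) S) - 1 =
          ((ρ g : (Matrix (Fin n) (Fin n) S)ˣ) : Matrix (Fin n) (Fin n) S) *
          (((ρ a : (Matrix (Fin n) (Fin n) S)ˣ) : Matrix (Fin n) (Fin n) S) - 1) *
            (((ρ g)⁻¹ : (Matrix (Fin n) (Fin n) S)ˣ) : Matrix (Fin n) (Fin n) S) := by
        rw [map_mul, map_mul, map_inv, Units.val_mul, Units.val_mul, mul_sub, sub_mul, mul_one,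
          Units.mul_inv]
      rw [e1]
      exact Ideal.mul_mem_right _ _ (Ideal.mul_mem_left _ _ h1)
    exact h3

theorem cong_mono {I J : Ideal S} [I.IsTwoSided] [J.IsTwoSided] (h : I ≤ J) : cong N ρ I ≤ cong N ρ J :=
  fun _ hg => ⟨hg.1, fun i j => h (hg.2 i j)⟩

end cong

end Pool.Agent.R942.FJ
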