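import Pool.Agent.R942.FJ.Ser

/-!
# Ascending series of ideals: the theorem
-/

set_option autoImplicit false
set_option linter.unusedSimpArgs false

namespace Pool.Agent.R942.FJ

open Pool.Agent.Y110.FJ Pool.Agent.R941.FJ
open Pool.Agent.Y462.SS (Closed)

variable {C : ∀ (G : Type) [Group G], Prop}

/-- the factor `J / I` is of square zero, or locally finite, or has local units such that all `GL_m` of
their corners in `S ⧸ I` are in `C` -/
def Admissible (C : ∀ (G : Type) [Group G], Prop) {S : Type} [Ring S] (I J : Ideal S) [I.IsTwoSided] :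
    Prop :=
  (∀ x ∈ J, ∀ y ∈ J, x * y ∈ I) ∨
  (∀ T : Set S, T.Finite → T ⊆ J → ∃ A : NonUnitalSubring S, T ⊆ A ∧
    I.toAddSubgroup.relIndex A.toAddSubgroup ≠ 0) ∨
  LocalGL C (J.map (Ideal.Quotient.mk I))

section

variable {S : Type} [Ring S] {n : ℕ} {G : Type} [Group G] (N : Subgroup G) [N.Normal]
  (ρ : G →* (Matrix (Fin n) (Fin n) S)ˣ) (I J : Ideal S) [I.IsTwoSided] [J.IsTwoSided]

theorem comm_sub {R : Type} [Ring R] (u v : Rˣ) : ((u * v * u⁻¹ * v⁻¹ : Rˣ) : R) - 1 =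
    (((u : R) - 1) * ((v : R) - 1) - ((v : R) - 1) * ((u : R) - 1)) * ((u⁻¹ * v⁻¹ : Rˣ) : R) := by
  have h1 : ((u : R) - 1) * ((v : R) - 1) - ((v : R) - 1) * ((u : R) - 1) = u * v - v * u := by
    noncomm_ring
  rw [h1, sub_mul]
  push_cast
  rw [mul_assoc (v : R) u, ← mul_assoc (u : R) (((u⁻¹ : Rˣ)) : R), Units.mul_inv, one_mul, Units.mul_inv]
  simp only [mul_assoc]

omit [N.Normal] in
theorem sq_case (h : ∀ x ∈ J, ∀ y ∈ J, x * y ∈ I) :
    ∀ a ∈ cong N ρ J, ∀ b ∈ cong N ρ J, a * b * a⁻¹ * b⁻¹ ∈ cong N ρ I := by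
  have hm : ∀ x ∈ J.matrix (Fin n), ∀ y ∈ J.matrix (Fin n), x * y ∈ I.matrix (Fin n) := by
    intro x hx y hy i j
    rw [Matrix.mul_apply]
    exact Ideal.sum_mem _ fun k _ => h _ (hx i k) _ (hy k j)
  intro a ha b hb
  refine ⟨mul_mem (mul_mem (mul_mem ha.1 hb.1) (inv_mem ha.1)) (inv_mem hb.1), ?_⟩
  have h1 : ((ρ (a * b * a⁻¹ * b⁻¹) : (Matrix (Fin n) (Fin n) S)ˣ) : Matrix (Fin n) (Fin n) S) - 1 ∈
      I.matrix (Fin n) := by
    rw [map_mul, map_mul, map_mul, map_inv, map_inv, comm_sub]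
    exact Ideal.mul_mem_right _ _ (sub_mem (hm _ ha.2 _ hb.2) (hm _ hb.2 _ ha.2))
  exact h1

/-- the elements congruent to one modulo a nonunital subring -/
def dA (A : NonUnitalSubring S) : Subgroup G where
  carrier := {g | (∀ i j, ((ρ g : Matrix (Fin n) (Fin n) S) - 1) i j ∈ A) ∧
    ∀ i j, ((ρ g⁻¹ : Matrix (Fin n) (Fin n) S) - 1) i j ∈ A}
  one_mem' := by simp
  mul_mem' := by
    have key : ∀ u v : Matrix (Fin n) (Fin n) S, (∀ i j, (u - 1) i j ∈ A) → (∀ i j, (v - 1) i j ∈ A) →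
        ∀ i j, (u * v - 1) i j ∈ A := by
      intro u v hu hv i j
      have e : u * v - 1 = (u - 1) * (v - 1) + (u - 1) + (v - 1) := by noncomm_ring
      rw [e, Matrix.add_apply, Matrix.add_apply, Matrix.mul_apply]
      exact add_mem (add_mem (sum_mem fun k _ => mul_mem (hu i k) (hv k j)) (hu i j)) (hv i j)
    rintro a b ⟨h1, h2⟩ ⟨h3, h4⟩
    refine ⟨?_, ?_⟩
    · rw [map_mul, Units.val_mul]
      exact key _ _ h1 h3
    · rw [mul_inv_rev, map_mul, Units.val_mul]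
      exact key _ _ h4 h2
  inv_mem' := by
    rintro a ⟨h1, h2⟩
    refine ⟨h2, ?_⟩
    rw [inv_inv]
    exact h1

omit [N.Normal] in
theorem lf_case (h : ∀ T : Set S, T.Finite → T ⊆ J → ∃ A : NonUnitalSubring S, T ⊆ A ∧
    I.toAddSubgroup.relIndex A.toAddSubgroup ≠ 0) :
    ∀ E : Set G, E.Finite → E ⊆ cong N ρ J → (cong N ρ I).relIndex (Subgroup.closure E) ≠ 0 := by
  intro E hE hEJ
  obtain ⟨A, hTA, hA⟩ := h (⋃ a ∈ E, (Set.range fun p : Fin n × Fin n =>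
      ((ρ a : Matrix (Fin n) (Fin n) S) - 1) p.1 p.2) ∪ (Set.range fun p : Fin n × Fin n =>
      ((ρ a⁻¹ : Matrix (Fin n) (Fin n) S) - 1) p.1 p.2))
    (hE.biUnion fun a _ => (Set.finite_range _).union (Set.finite_range _)) (by
      intro x hx
      simp only [Set.mem_iUnion, Set.mem_range, Set.mem_union] at hx
      obtain ⟨a, ha, ⟨p, rfl⟩ | ⟨p, rfl⟩⟩ := hx
      · exact (hEJ ha).2 p.1 p.2
      · exact (inv_mem (hEJ ha)).2 p.1 p.2)
  have hcl : Subgroup.closure E ≤ dA ρ A := by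
    rw [Subgroup.closure_le]
    intro a ha
    refine ⟨fun i j => hTA ?_, fun i j => hTA ?_⟩
    · simp only [Set.mem_iUnion, Set.mem_range, Set.mem_union]
      exact ⟨a, ha, Or.inl ⟨(i, j), rfl⟩⟩
    · simp only [Set.mem_iUnion, Set.mem_range, Set.mem_union]
      exact ⟨a, ha, Or.inr ⟨(i, j), rfl⟩⟩
  have hclN : Subgroup.closure E ≤ cong N ρ J := by
    rw [Subgroup.closure_le]
    exact hEJ
  have hfin : Finite (A.toAddSubgroup ⧸ I.toAddSubgroup.addSubgroupOf A.toAddSubgroup) :=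
    Nat.finite_of_card_ne_zero hA
  let K := Subgroup.closure E
  let Y := Fin n → Fin n → A.toAddSubgroup ⧸ I.toAddSubgroup.addSubgroupOf A.toAddSubgroup
  let φ : K → Y := fun a i j => QuotientAddGroup.mk
    (⟨((ρ a : Matrix (Fin n) (Fin n) S) - 1) i j, (hcl a.2).1 i j⟩ : A.toAddSubgroup)
  have hφ : ∀ a b : K, φ a = φ b → (QuotientGroup.mk a : K ⧸ (cong N ρ I).subgroupOf K) = QuotientGroup.mk b := by
    intro a b hab
    rw [QuotientGroup.eq, Subgroup.mem_subgroupOf]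
    refine ⟨mul_mem (inv_mem (hclN a.2).1) (hclN b.2).1, ?_⟩
    have h1 : ((ρ b : Matrix (Fin n) (Fin n) S) - (ρ a : Matrix (Fin n) (Fin n) S)) ∈ I.matrix (Fin n) := by
      intro i j
      have h2 := congrFun (congrFun hab i) j
      rw [QuotientAddGroup.eq, AddSubgroup.mem_addSubgroupOf] at h2
      have h3 : -(((ρ a : Matrix (Fin n) (Fin n) S) - 1) i j) + ((ρ b : Matrix (Fin n) (Fin n) S) - 1) i j ∈ I := h2
      have e : ((ρ b : Matrix (Fin n) (Fin n) S) - (ρ a : Matrix (Fin n) (Fin n) S)) i j =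
          -(((ρ a : Matrix (Fin n) (Fin n) S) - 1) i j) + ((ρ b : Matrix (Fin n) (Fin n) S) - 1) i j := by
        simp only [Matrix.sub_apply]
        abel
      rw [e]
      exact h3
    have h4 : ((ρ ((a⁻¹ * b : K) : G) : (Matrix (Fin n) (Fin n) S)ˣ) : Matrix (Fin n) (Fin n) S) - 1 =
        (((ρ a)⁻¹ : (Matrix (Fin n) (Fin n) S)ˣ) : Matrix (Fin n) (Fin n) S) *
        ((ρ b : Matrix (Fin n) (Fin n) S) - (ρ a : Matrix (Fin n) (Fin n) S)) := by
      rw [Subgroup.coe_mul, Subgroup.coe_inv, map_mul, map_inv, Units.val_mul, mul_sub, Units.inv_mul]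
    have h5 : ((ρ ((a⁻¹ * b : K) : G) : (Matrix (Fin n) (Fin n) S)ˣ) : Matrix (Fin n) (Fin n) S) - 1 ∈
        I.matrix (Fin n) := by
      rw [h4]
      exact Ideal.mul_mem_left _ _ h1
    exact h5
  have hinj : Function.Injective (fun q : K ⧸ (cong N ρ I).subgroupOf K => φ q.out) := by
    intro q q' hqq
    have h1 := hφ _ _ hqq
    rwa [QuotientGroup.out_eq', QuotientGroup.out_eq'] at h1
  have : Finite (K ⧸ (cong N ρ I).subgroupOf K) := Finite.of_injective _ hinj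
  exact Subgroup.index_ne_zero_of_finite

end

/-! ### the factor with local units -/

theorem loc_case (hC : ClosedE C) {S : Type} [Ring S] {n : ℕ} {G : Type} [Group G] (N : Subgroup G)
    [N.Normal] (ρ : G →* (Matrix (Fin n) (Fin n) S)ˣ) (I J : Ideal S) [I.IsTwoSided] [J.IsTwoSided]
    (h : LocalGL C (J.map (Ideal.Quotient.mk I))) (g : G) :
    C ↥((cong N ρ J ⊔ Subgroup.zpowers g).map (QuotientGroup.mk' (cong N ρ I))) := by
  let q : Matrix (Fin n) (Fin n) S →+* Matrix (Fin n) (Fin n) (S ⧸ I) := (Ideal.Quotient.mk I).mapMatrix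
  let ρ' : G →* (Matrix (Fin n) (Fin n) (S ⧸ I))ˣ := (Units.map (q : _ →* _)).comp ρ
  have hval : ∀ g : G, ((ρ' g : (Matrix (Fin n) (Fin n) (S ⧸ I))ˣ) : Matrix (Fin n) (Fin n) (S ⧸ I)) - 1 =
      q ((ρ g : Matrix (Fin n) (Fin n) S) - 1) := by
    intro g
    rw [map_sub, map_one]
    rfl
  refine step_loc hC (J := (J.map (Ideal.Quotient.mk I)).matrix (Fin n)) (h.matrix hC.base n) ρ'
    (cong N ρ I) (cong N ρ J) ?_ ?_ ?_ g
  · intro g hg
    apply Units.ext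
    rw [Units.val_one, ← sub_eq_zero, hval]
    ext i j
    exact Ideal.Quotient.eq_zero_iff_mem.2 (hg.2 i j)
  · intro g hg hg1
    refine ⟨hg.1, fun i j => ?_⟩
    have h1 := hval g
    rw [hg1, Units.val_one, sub_self] at h1
    have h2 := congrFun (congrFun h1 i) j
    exact Ideal.Quotient.eq_zero_iff_mem.1 h2.symm
  · intro g hg
    rw [hval]
    intro i j
    exact Ideal.mem_map_of_mem _ (hg.2 i j)

section

variable {S : Type} [Ring S] {n : ℕ} {G : Type} [Group G] (N : Subgroup G)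
  (ρ : G →* (Matrix (Fin n) (Fin n) S)ˣ)

/-- the ideals whose congruence subgroups are good -/
def Good (C : ∀ (G : Type) [Group G], Prop) (K I : Ideal S) : Prop :=
  ∃ h : I.IsTwoSided, I ≤ K ∧ ∀ g : G, C ↥(@cong S _ n G _ N ρ I h ⊔ Subgroup.zpowers g)

theorem good_bot (hC : ClosedE C) (hinj : ∀ g ∈ N, ρ g = 1 → g = 1) (K : Ideal S) :
    Good N ρ C K ⊥ := by
  refine ⟨inferInstance, bot_le, fun g => ?_⟩
  have h1 : cong N ρ (⊥ : Ideal S) = ⊥ := by
    rw [eq_bot_iff]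
    intro x hx
    refine hinj x hx.1 (Units.ext ?_)
    rw [Units.val_one, ← sub_eq_zero]
    ext i j
    exact hx.2 i j
  rw [h1, bot_sup_eq]
  exact C_cyc hC.base g

theorem two_sup (c : Set (Ideal S)) (hne : c.Nonempty) (hdir : DirectedOn (· ≤ ·) c)
    (h : ∀ I ∈ c, I.IsTwoSided) : (sSup c).IsTwoSided := by
  refine ⟨fun {a} b ha => ?_⟩
  rw [Submodule.mem_sSup_of_directed hne hdir] at ha ⊢
  obtain ⟨K', hK', haK⟩ := ha
  have h1 := h K' hK'
  exact ⟨K', hK', Ideal.mul_mem_right b K' haK⟩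

theorem cong_sup (c : Set (Ideal S)) (hne : c.Nonempty) (hdir : DirectedOn (· ≤ ·) c)
    (h : ∀ I : c, (I : Ideal S).IsTwoSided) [(sSup c).IsTwoSided] (a : G) (ha : a ∈ cong N ρ (sSup c)) :
    ∃ I : c, a ∈ cong N ρ (I : Ideal S) := by
  have hne' : Nonempty c := hne.to_subtype
  have h1 : ∀ p : Fin n × Fin n, ∃ k : c, ((ρ a : Matrix (Fin n) (Fin n) S) - 1) p.1 p.2 ∈ (k : Ideal S) := by
    intro p
    have h2 := ha.2 p.1 p.2
    rw [Submodule.mem_sSup_of_directed hne hdir] at h2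
    obtain ⟨K', hK', haK⟩ := h2
    exact ⟨⟨K', hK'⟩, haK⟩
  choose κ hκ using h1
  have hdir' : Directed (· ≤ ·) (fun k : c => (k : Ideal S)) := directedOn_iff_directed.1 hdir
  obtain ⟨k, hk⟩ := hdir'.finite_le κ
  exact ⟨k, ha.1, fun i j => hk (i, j) (hκ (i, j))⟩

theorem good_sup [N.Normal] (hC : ClosedE C) (K : Ideal S) (c : Set (Ideal S)) (hne : c.Nonempty)
    (hdir : DirectedOn (· ≤ ·) c) (h : ∀ I ∈ c, Good N ρ C K I) : Good N ρ C K (sSup c) := by
  have htw : ∀ I : c, (I : Ideal S).IsTwoSided := fun I => (h I I.2).1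
  have hsup : (sSup c).IsTwoSided := two_sup c hne hdir fun I hI => (h I hI).1
  have hne' : Nonempty c := hne.to_subtype
  refine ⟨hsup, sSup_le fun I hI => (h I hI).2.1, fun g => ?_⟩
  have hle : ∀ i : c, cong N ρ (i : Ideal S) ⊔ Subgroup.zpowers g ≤ cong N ρ (sSup c) ⊔ Subgroup.zpowers g :=
    fun i => sup_le_sup_right (cong_mono N ρ (le_sSup i.2)) _
  refine Pool.Agent.Y430.SS.of_directed hC.base _ c (fun i j => ?_)
    (fun i => (cong N ρ (i : Ideal S) ⊔ Subgroup.zpowers g).subgroupOf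
      (cong N ρ (sSup c) ⊔ Subgroup.zpowers g)) ?_ ?_ ?_
  · obtain ⟨k, hk, h1, h2⟩ := hdir i.1 i.2 j.1 j.2
    exact ⟨⟨k, hk⟩, h1, h2⟩
  · intro i j hij
    exact Subgroup.comap_mono (sup_le_sup_right (cong_mono N ρ hij) _)
  · rintro ⟨x, hx⟩
    obtain ⟨a, ha, b, hb, hab⟩ := mem_sup_normal.1 hx
    obtain ⟨k, hk⟩ := cong_sup N ρ c hne hdir htw a ha
    refine ⟨k, ?_⟩
    rw [Subgroup.mem_subgroupOf]
    show x ∈ cong N ρ (k : Ideal S) ⊔ Subgroup.zpowers g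
    rw [← hab]
    exact mul_mem (Subgroup.mem_sup_left hk) (Subgroup.mem_sup_right hb)
  · intro i
    exact C_equiv hC.base (Subgroup.subgroupOfEquivOfLe (hle i)) ((h i i.2).2.2 g)

theorem good_succ [N.Normal] (hC : ClosedE C)
    (hmet : ∀ (S : Type) [Group S], (∀ a ∈ commutator S, ∀ b ∈ commutator S, a * b = b * a) → C S)
    (K I J : Ideal S) (hI : Good N ρ C K I) [I.IsTwoSided] (hJt : J.IsTwoSided) (hIJ : I ≤ J) (hJK : J ≤ K)
    (hadm : Admissible C I J) : Good N ρ C K J := by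
  obtain ⟨hIt, hIK, hIC⟩ := hI
  refine ⟨hJt, hJK, fun g => ?_⟩
  have hstep : ∀ g : G, C ↥((cong N ρ J ⊔ Subgroup.zpowers g).map (QuotientGroup.mk' (cong N ρ I))) := by
    intro g
    rcases hadm with h2 | h2 | h2
    · exact factor_ab hC hmet _ _ (sq_case N ρ I J h2) g
    · exact factor_lf hC _ _ (lf_case N ρ I J h2) g
    · exact loc_case hC N ρ I J h2 g
  exact step hC hIC (cong_mono N ρ hIJ) hstep g

end

/-- **the theorem** -/
theorem series (hC : ClosedE C)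
    (hmet : ∀ (S : Type) [Group S], (∀ a ∈ commutator S, ∀ b ∈ commutator S, a * b = b * a) → C S)
    {S : Type} [Ring S] {n : ℕ} {G : Type} [Group G] (N : Subgroup G)
    [N.Normal] (ρ : G →* (Matrix (Fin n) (Fin n) S)ˣ) (hinj : ∀ g ∈ N, ρ g = 1 → g = 1)
    (K : Ideal S) (hN : ∀ g ∈ N, ∀ i j, ((ρ g : Matrix (Fin n) (Fin n) S) - 1) i j ∈ K)
    (hQ : C (G ⧸ N))
    (h : ∀ I : Ideal S, ∀ _ : I.IsTwoSided, I < K → ∃ J : Ideal S, J.IsTwoSided ∧ I < J ∧ J ≤ K ∧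
      Admissible C I J) : C G := by
  obtain ⟨I, -, hI⟩ := zorn_le_nonempty₀ {I | Good N ρ C K I} (fun c hc hch y hy =>
    ⟨sSup c, good_sup N ρ hC K c ⟨y, hy⟩ hch.directedOn fun I hI => hc hI, fun z hz => le_sSup hz⟩) ⊥
    (good_bot N ρ hC hinj K)
  have hIZ : Good N ρ C K I := hI.prop
  obtain ⟨hIt, hIK, hIC⟩ := id hIZ
  have heq : I = K := by
    by_contra hne
    obtain ⟨J, hJt, hlt, hle, hadm⟩ := h I hIt (lt_of_le_of_ne hIK hne)
    have h1 : Good N ρ C K J := good_succ N ρ hC hmet K I J hIZ hJt hlt.le hle hadm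
    exact absurd (hI.le_of_ge h1 hlt.le) (not_le_of_gt hlt)
  subst heq
  have hNI : cong N ρ I = N := le_antisymm (fun x hx => hx.1) fun x hx => ⟨hx, hN x hx⟩
  rw [hNI] at hIC
  refine Pool.Agent.Y529.FJ.t_ext C hC G N ?_ hQ fun g _ => hIC g
  exact C_le hC.base le_sup_left (hIC 1)

end Pool.Agent.R942.FJ
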